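import Pool.Agent.J4.H17.SR.Defs

set_option autoImplicit false

namespace Pool.Agent.J4.H17.SR
open NumberField
open Pool.Agent.K4H33.SK (Qbar GQ Fixes IsZeta AbelianRoot IsTorsionOrder IsArtin cnt)

open Classical in
theorem cnt_sum (K H L : Sub) [NumberField K] (𝔣 : Ideal (𝓞 K)) (art : Ideal (𝓞 K) → GQ)
    (hart : ∀ 𝔟, IsCoprime 𝔟 𝔣 → Fixes K (art 𝔟)) (hLH : L ≤ H)
    (G : Type) [CommGroup G] [Fintype G] (π : K.fixingSubgroup →* G)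
    (hπ : ∀ σ : K.fixingSubgroup, π σ = 1 ↔ Fixes H σ) (J : Subgroup G)
    (hJ : ∀ σ : K.fixingSubgroup, Fixes L σ ↔ π σ ∈ J)
    (rep : G → K.fixingSubgroup) (hrep : ∀ g, π (rep g) = g) (σ : K.fixingSubgroup) (n : ℕ) :
    cnt K L 𝔣 art σ n = ∑ g : G, if (π σ)⁻¹ * g ∈ J then cnt K H 𝔣 art (rep g) n else 0 := by
  have hfin := Ideal.finite_setOfPred_absNorm_eq (S := 𝓞 K) n
  have hmem : ∀ 𝔟, IsCoprime 𝔟 𝔣 → art 𝔟 ∈ K.fixingSubgroup := fun 𝔟 h =>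
    (IntermediateField.mem_fixingSubgroup_iff K (art 𝔟)).2 (hart 𝔟 h)
  obtain ⟨A, hA⟩ : ∃ A : Finset (Ideal (𝓞 K)), ∀ 𝔟, 𝔟 ∈ A ↔
      (Ideal.absNorm 𝔟 = n ∧ IsCoprime 𝔟 𝔣) :=
    ⟨hfin.toFinset.filter (fun 𝔟 => IsCoprime 𝔟 𝔣), fun 𝔟 => by simp⟩
  obtain ⟨γ, hγ⟩ : ∃ γ : Ideal (𝓞 K) → G, ∀ 𝔟 (h : IsCoprime 𝔟 𝔣), γ 𝔟 = π ⟨art 𝔟, hmem 𝔟 h⟩ :=
    ⟨fun 𝔟 => if h : IsCoprime 𝔟 𝔣 then π ⟨art 𝔟, hmem 𝔟 h⟩ else 1, fun 𝔟 h => by simp [h]⟩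
  have hfix : ∀ (M : Sub) (τ ρ : K.fixingSubgroup),
      (∀ x ∈ M, (τ : GQ) x = (ρ : GQ) x) ↔ Fixes M ((ρ⁻¹ * τ : K.fixingSubgroup) : GQ) := by
    intro M τ ρ
    unfold Fixes
    refine forall₂_congr fun x _ => ?_
    have e : ((ρ⁻¹ * τ : K.fixingSubgroup) : GQ) x = (ρ : GQ).symm ((τ : GQ) x) := rfl
    rw [e, AlgEquiv.symm_apply_eq]
  have h1 : cnt K L 𝔣 art σ n = (A.filter (fun 𝔟 => (π σ)⁻¹ * γ 𝔟 ∈ J)).card := by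
    unfold cnt
    refine Nat.subtype_card _ fun 𝔟 => ?_
    rw [Finset.mem_filter, hA, and_assoc]
    refine and_congr_right fun _ => and_congr_right fun h => ?_
    have := hfix L ⟨art 𝔟, hmem 𝔟 h⟩ σ
    rw [hγ 𝔟 h]
    change _ ↔ (∀ x ∈ L, ((⟨art 𝔟, hmem 𝔟 h⟩ : K.fixingSubgroup) : GQ) x = (σ : GQ) x)
    rw [this, hJ, map_mul, map_inv]
  have h2 : ∀ g : G, cnt K H 𝔣 art (rep g) n = (A.filter (fun 𝔟 => γ 𝔟 = g)).card := by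
    intro g
    unfold cnt
    refine Nat.subtype_card _ fun 𝔟 => ?_
    rw [Finset.mem_filter, hA, and_assoc]
    refine and_congr_right fun _ => and_congr_right fun h => ?_
    have := hfix H ⟨art 𝔟, hmem 𝔟 h⟩ (rep g)
    rw [hγ 𝔟 h]
    change _ ↔ (∀ x ∈ H, ((⟨art 𝔟, hmem 𝔟 h⟩ : K.fixingSubgroup) : GQ) x = ((rep g : K.fixingSubgroup) : GQ) x)
    rw [this, ← hπ, map_mul, map_inv, hrep, inv_mul_eq_one]
    exact eq_comm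
  rw [h1]
  simp_rw [h2, Finset.card_filter]
  have h3 : ∀ g : G, (if (π σ)⁻¹ * g ∈ J then ∑ 𝔟 ∈ A, (if γ 𝔟 = g then 1 else 0) else 0)
      = ∑ 𝔟 ∈ A, (if γ 𝔟 = g then (if (π σ)⁻¹ * γ 𝔟 ∈ J then 1 else 0) else 0) := by
    intro g
    by_cases h : (π σ)⁻¹ * g ∈ J
    · rw [if_pos h]
      refine Finset.sum_congr rfl fun 𝔟 _ => ?_
      by_cases e : γ 𝔟 = g
      · rw [if_pos e, if_pos e, e, if_pos h]
      · rw [if_neg e, if_neg e]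
    · rw [if_neg h]
      symm
      refine Finset.sum_eq_zero fun 𝔟 _ => ?_
      by_cases e : γ 𝔟 = g
      · rw [if_pos e, e, if_neg h]
      · rw [if_neg e]
  simp_rw [h3]
  rw [Finset.sum_comm]
  refine Finset.sum_congr rfl fun 𝔟 _ => ?_
  rw [Finset.sum_ite_eq]
  simp

end Pool.Agent.J4.H17.SR
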