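import Mathlib

/-! A combinatorial identity from a norm relation. -/

set_option autoImplicit false

namespace Pool.Agent.J4.H17.SR

open Classical in
lemma comb_identity {G : Type} [CommGroup G] [Fintype G] {N : ℕ} (J : Fin N → Subgroup G)
    (a : Fin N → G → ℤ) (n : ℕ)
    (hrel : ∀ h : G, ∑ i, ∑ g : G, (if g⁻¹ * h ∈ J i then a i g else 0) =
      if h = 1 then (n : ℤ) else 0) (F : G → ℂ) (x : G) :
    ∑ i, ∑ g : G, (a i g : ℂ) * ∑ y : G, (if (x * g)⁻¹ * y ∈ J i then (1 : ℂ) else 0) * F y =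
      n * F x := by
  have h1 : ∀ i (g : G), (a i g : ℂ) * ∑ y : G,
      (if (x * g)⁻¹ * y ∈ J i then (1 : ℂ) else 0) * F y =
      ∑ y : G, (((if g⁻¹ * (x⁻¹ * y) ∈ J i then a i g else 0) : ℤ) : ℂ) * F y := by
    intro i g
    rw [Finset.mul_sum]
    refine Finset.sum_congr rfl fun y _ => ?_
    have h2 : (x * g)⁻¹ * y = g⁻¹ * (x⁻¹ * y) := by rw [mul_inv_rev, mul_assoc]
    rw [h2]
    by_cases h3 : g⁻¹ * (x⁻¹ * y) ∈ J i
    · rw [if_pos h3, if_pos h3]; ring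
    · rw [if_neg h3, if_neg h3]; simp
  have h4 : ∀ i, ∑ g : G, (a i g : ℂ) * ∑ y : G,
      (if (x * g)⁻¹ * y ∈ J i then (1 : ℂ) else 0) * F y =
      ∑ y : G, ∑ g : G, (((if g⁻¹ * (x⁻¹ * y) ∈ J i then a i g else 0) : ℤ) : ℂ) * F y := by
    intro i
    rw [Finset.sum_congr rfl fun g _ => h1 i g]
    exact Finset.sum_comm
  rw [Finset.sum_congr rfl fun i _ => h4 i, Finset.sum_comm]
  have h5 : ∀ y : G, ∑ i, ∑ g : G, (((if g⁻¹ * (x⁻¹ * y) ∈ J i then a i g else 0) : ℤ) : ℂ) * F y =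
      (if x⁻¹ * y = 1 then (n : ℂ) else 0) * F y := by
    intro y
    have h6 := congrArg (fun t : ℤ => (t : ℂ)) (hrel (x⁻¹ * y))
    simp only [Int.cast_sum] at h6
    have h7 : (((if x⁻¹ * y = 1 then (n : ℤ) else 0) : ℤ) : ℂ) =
        if x⁻¹ * y = 1 then (n : ℂ) else 0 := by
      split_ifs <;> simp
    rw [h7] at h6
    rw [← h6, Finset.sum_mul]
    refine Finset.sum_congr rfl fun i _ => ?_
    rw [Finset.sum_mul]
  rw [Finset.sum_congr rfl fun y _ => h5 y, Finset.sum_eq_single x]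
  · rw [if_pos (inv_mul_cancel x)]
  · intro y _ hy
    rw [if_neg, zero_mul]
    intro h0
    exact hy (inv_mul_eq_one.1 h0).symm
  · intro h0; exact absurd (Finset.mem_univ _) h0

end Pool.Agent.J4.H17.SR
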