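import Pool.Agent.J4.H17.SR.Defs
import Pool.Agent.K4H33.SK.Zeta

set_option autoImplicit false

/-! Shift of a Dirichlet series by a natural number. -/

namespace Pool.Agent.J4.H17.SR
open NumberField
open Pool.Agent.K4H33.SK (Qbar GQ Fixes IsZeta AbelianRoot IsTorsionOrder IsArtin cnt)

lemma isZeta_shift (a b : ℕ → ℕ) (N : ℕ) (hN : 1 ≤ N)
    (hb : ∀ n, n ≠ 0 → b n = if N ∣ n then a (n / N) else 0) (Z : ℂ → ℂ) (h : IsZeta a Z) :
    IsZeta b (fun s => (N : ℂ) ^ (-s) * Z s) := by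
  have hN0 : N ≠ 0 := by omega
  have hNC : (N : ℂ) ≠ 0 := Nat.cast_ne_zero.2 hN0
  refine ⟨?_, ?_⟩
  · have h1 : Differentiable ℂ (fun s : ℂ => (N : ℂ) ^ (-s)) := by
      intro s
      exact (differentiableAt_id.neg).const_cpow (Or.inl hNC)
    exact h1.differentiableOn.mul h.1
  · intro s hs
    have h1 : HasSum (LSeries.term (fun n => (a n : ℂ)) s) (Z s) := h.2 s hs
    have h2 := h1.mul_left ((N : ℂ) ^ (-s))
    have hinj : Function.Injective (fun n : ℕ => N * n) := by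
      intro m n hmn
      exact Nat.eq_of_mul_eq_mul_left (by omega) hmn
    show HasSum (LSeries.term (fun n => (b n : ℂ)) s) ((N : ℂ) ^ (-s) * Z s)
    rw [← hinj.hasSum_iff]
    · have hfun : (LSeries.term (fun n => (b n : ℂ)) s ∘ fun n : ℕ => N * n) =
          fun i => (N : ℂ) ^ (-s) * LSeries.term (fun n => (a n : ℂ)) s i := ?_
      · rw [hfun]
        exact h2
      funext n
      simp only [Function.comp_apply]
      rcases eq_or_ne n 0 with rfl | hn
      · simp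
      · rw [LSeries.term_of_ne_zero (Nat.mul_ne_zero hN0 hn), LSeries.term_of_ne_zero hn,
          hb (N * n) (Nat.mul_ne_zero hN0 hn), if_pos (Nat.dvd_mul_right N n),
          Nat.mul_div_cancel_left n (by omega), Nat.cast_mul, Complex.natCast_mul_natCast_cpow,
          Complex.cpow_neg]
        field_simp
    · intro m hm
      rcases eq_or_ne m 0 with rfl | hm0
      · simp
      · rw [LSeries.term_of_ne_zero hm0, hb m hm0, if_neg]
        · simp
        · rintro ⟨k, rfl⟩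
          exact hm ⟨k, rfl⟩

lemma deriv_shift (N : ℕ) (hN : 1 ≤ N) (Z : ℂ → ℂ) (h : DifferentiableAt ℂ Z 0) :
    deriv (fun s => (N : ℂ) ^ (-s) * Z s) 0 = deriv Z 0 - Real.log N * Z 0 := by
  have hN0 : N ≠ 0 := by omega
  have hNC : (N : ℂ) ≠ 0 := Nat.cast_ne_zero.2 hN0
  have h1 : HasDerivAt (fun s : ℂ => (N : ℂ) ^ (-s)) ((N : ℂ) ^ (-(0 : ℂ)) * Complex.log N * (-1)) 0 := by
    have h2 : HasDerivAt (fun s : ℂ => -s) (-1) (0 : ℂ) := (hasDerivAt_id (0 : ℂ)).neg
    exact h2.const_cpow (Or.inl hNC)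
  have h3 := (h1.mul h.hasDerivAt).deriv
  have h4 : (fun s => (N : ℂ) ^ (-s) * Z s) = (fun s : ℂ => (N : ℂ) ^ (-s)) * Z := rfl
  rw [h4, h3, neg_zero, Complex.cpow_zero, ← Complex.ofReal_natCast, ← Complex.ofReal_log (Nat.cast_nonneg N)]
  ring

end Pool.Agent.J4.H17.SR
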