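import Pool.Agent.J4.H17.SR.EUL1
import Pool.Agent.J4.H17.SR.EUL2

/-! Value and derivative at zero of continued Dirichlet series. -/

set_option autoImplicit false

namespace Pool.Agent.J4.H17.SR
open NumberField
open Pool.Agent.K4H33.SK (Qbar GQ Fixes IsZeta AbelianRoot IsTorsionOrder IsArtin cnt isZeta_deriv)

open Classical in
/-- The derivative at zero. -/
noncomputable def dz (a : ℕ → ℕ) : ℂ := if h : ∃ Z, IsZeta a Z then deriv h.choose 0 else 0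

open Classical in
/-- The value at zero. -/
noncomputable def vz (a : ℕ → ℕ) : ℂ := if h : ∃ Z, IsZeta a Z then h.choose 0 else 0

lemma dz_eq {a : ℕ → ℕ} {Z : ℂ → ℂ} (h : IsZeta a Z) : dz a = deriv Z 0 := by
  have h' : ∃ Z, IsZeta a Z := ⟨Z, h⟩
  unfold dz
  rw [dif_pos h']
  exact (isZeta_deriv h'.choose_spec h fun _ _ => rfl).1

lemma vz_eq {a : ℕ → ℕ} {Z : ℂ → ℂ} (h : IsZeta a Z) : vz a = Z 0 := by
  have h' : ∃ Z, IsZeta a Z := ⟨Z, h⟩
  unfold vz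
  rw [dif_pos h']
  exact (isZeta_deriv h'.choose_spec h fun _ _ => rfl).2

lemma isZeta_comb' {ι : Type} (s : Finset ι) (c : ι → ℂ) (a : ι → ℕ → ℕ) (Z : ι → ℂ → ℂ)
    (b : ℕ → ℕ) (h : ∀ i ∈ s, IsZeta (a i) (Z i))
    (hb : ∀ n, n ≠ 0 → (b n : ℂ) = ∑ i ∈ s, c i * (a i n : ℂ)) :
    IsZeta b (fun t => ∑ i ∈ s, c i * Z i t) := by
  constructor
  · exact DifferentiableOn.fun_sum fun i hi => (h i hi).1.const_mul _
  · intro t ht
    have h1 : LSeriesHasSum (∑ i ∈ s, c i • fun n => (a i n : ℂ)) t (∑ i ∈ s, c i • Z i t) :=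
      LSeriesHasSum.sum fun i hi => ((h i hi).2 t ht).smul (c i)
    refine (LSeriesHasSum_congr (f := ∑ i ∈ s, c i • fun n => (a i n : ℂ))
      (g := fun n => (b n : ℂ)) t _ ?_).1 h1
    intro n hn
    rw [hb n hn, Finset.sum_apply]
    rfl

lemma comb {ι : Type} (s : Finset ι) (c : ι → ℂ) (a : ι → ℕ → ℕ) (b : ℕ → ℕ)
    (h : ∀ i ∈ s, ∃ Z, IsZeta (a i) Z)
    (hb : ∀ n, n ≠ 0 → (b n : ℂ) = ∑ i ∈ s, c i * (a i n : ℂ)) :
    (∃ Z, IsZeta b Z) ∧ dz b = ∑ i ∈ s, c i * dz (a i) ∧ vz b = ∑ i ∈ s, c i * vz (a i) := by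
  classical
  have h' : ∃ Z : ι → ℂ → ℂ, ∀ i ∈ s, IsZeta (a i) (Z i) := by
    refine ⟨fun i => if hi : i ∈ s then (h i hi).choose else 0, fun i hi => ?_⟩
    have h0 : (fun i => if hi : i ∈ s then (h i hi).choose else 0) i = (h i hi).choose := dif_pos hi
    rw [h0]
    exact (h i hi).choose_spec
  obtain ⟨Z, hZ⟩ := h'
  have h1 := isZeta_comb' s c a Z b hZ hb
  have h2 : ∀ i ∈ s, DifferentiableAt ℂ (Z i) 0 := fun i hi =>
    (hZ i hi).1.differentiableAt (isOpen_compl_singleton.mem_nhds (by simp))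
  refine ⟨⟨_, h1⟩, ?_, ?_⟩
  · rw [dz_eq h1, deriv_fun_sum fun i hi => (h2 i hi).const_mul _]
    refine Finset.sum_congr rfl fun i hi => ?_
    rw [dz_eq (hZ i hi)]
    exact deriv_const_mul _ (h2 i hi)
  · rw [vz_eq h1]
    refine Finset.sum_congr rfl fun i hi => ?_
    rw [vz_eq (hZ i hi)]

lemma shift (a b : ℕ → ℕ) (N : ℕ) (hN : 1 ≤ N)
    (hb : ∀ n, n ≠ 0 → b n = if N ∣ n then a (n / N) else 0) (h : ∃ Z, IsZeta a Z) :
    (∃ Z, IsZeta b Z) ∧ dz b = dz a - Real.log N * vz a ∧ vz b = vz a := by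
  obtain ⟨Z, hZ⟩ := h
  have h1 := isZeta_shift a b N hN hb Z hZ
  have h2 : DifferentiableAt ℂ Z 0 :=
    hZ.1.differentiableAt (isOpen_compl_singleton.mem_nhds (by simp))
  refine ⟨⟨_, h1⟩, ?_, ?_⟩
  · rw [dz_eq h1, dz_eq hZ, vz_eq hZ]
    exact deriv_shift N hN Z h2
  · rw [vz_eq h1, vz_eq hZ]
    simp

/-- Adding a prime to `S`. -/
lemma add_prime (a a' b : ℕ → ℕ) (N : ℕ) (hN : 1 ≤ N)
    (hb : ∀ n, n ≠ 0 → a n = b n + if N ∣ n then a' (n / N) else 0) (h : ∃ Z, IsZeta a Z)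
    (h' : ∃ Z, IsZeta a' Z) :
    (∃ Z, IsZeta b Z) ∧ dz b = dz a - dz a' + Real.log N * vz a' ∧ vz b = vz a - vz a' := by
  obtain ⟨h1, h2, h3⟩ := shift a' (fun n => if N ∣ n then a' (n / N) else 0) N hN
    (fun _ _ => rfl) h'
  set a'' : ℕ → ℕ := fun n => if N ∣ n then a' (n / N) else 0 with ha''
  obtain ⟨h4, h5, h6⟩ := comb (Finset.univ : Finset (Fin 2)) ![1, -1] ![a, a''] b
    (by intro i _; fin_cases i; exacts [h, h1])
    (by
      intro n hn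
      rw [Fin.sum_univ_two]
      simp only [Matrix.cons_val_zero, Matrix.cons_val_one]
      rw [hb n hn, ha'']
      by_cases hd : N ∣ n
      · simp [hd]
      · simp [hd])
  refine ⟨h4, ?_, ?_⟩
  · rw [h5, Fin.sum_univ_two]
    simp only [Matrix.cons_val_zero, Matrix.cons_val_one]
    rw [h2]; ring
  · rw [h6, Fin.sum_univ_two]
    simp only [Matrix.cons_val_zero, Matrix.cons_val_one]
    rw [h3]; ring

end Pool.Agent.J4.H17.SR
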