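import Mathlib

/-! Functions on a finite commutative group: norms to quotients, and the two descent lemmas. -/

set_option autoImplicit false

namespace Pool.Agent.J4.H17.SR

variable {G : Type} [CommGroup G] [Fintype G]

open Classical in
/-- The sum over the coset `x J`. -/
noncomputable def nm (J : Subgroup G) (F : G → ℂ) (x : G) : ℂ :=
  ∑ g : G, if x⁻¹ * g ∈ J then F g else 0

open Classical in
/-- The number of elements of `J`. -/
noncomputable def crd (J : Subgroup G) : ℕ := ∑ g : G, if g ∈ J then 1 else 0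

lemma crd_eq (J : Subgroup G) : crd J = Nat.card J := by
  classical
  unfold crd
  rw [Finset.sum_boole, Nat.card_eq_fintype_card, Fintype.card_subtype]
  rfl

lemma nm_shift (J : Subgroup G) (F : G → ℂ) (h x : G) :
    nm J (fun y => F (y * h)) x = nm J F (x * h) := by
  classical
  unfold nm
  refine Fintype.sum_equiv (Equiv.mulRight h) _ _ fun g => ?_
  have h1 : (x * h)⁻¹ * (g * h) = x⁻¹ * g := by
    rw [mul_inv_rev, mul_comm g h, mul_assoc, mul_left_comm x⁻¹ h g, inv_mul_cancel_left]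
  change (if x⁻¹ * g ∈ J then F (g * h) else 0) = if (x * h)⁻¹ * (g * h) ∈ J then F (g * h) else 0
  rw [h1]

lemma nm_mul_mem (J : Subgroup G) (F : G → ℂ) (x : G) {j : G} (hj : j ∈ J) :
    nm J F (x * j) = nm J F x := by
  classical
  unfold nm
  refine Finset.sum_congr rfl fun g _ => ?_
  have h1 : (x * j)⁻¹ * g = j⁻¹ * (x⁻¹ * g) := by rw [mul_inv_rev, mul_assoc]
  rw [h1]
  have h2 : j⁻¹ * (x⁻¹ * g) ∈ J ↔ x⁻¹ * g ∈ J :=
    Subgroup.mul_mem_cancel_left J (J.inv_mem hj)
  simp only [h2]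

lemma nm_lin (J : Subgroup G) (a b : ℂ) (F F' : G → ℂ) (x : G) :
    nm J (fun y => a * F y + b * F' y) x = a * nm J F x + b * nm J F' x := by
  classical
  unfold nm
  rw [Finset.mul_sum, Finset.mul_sum, ← Finset.sum_add_distrib]
  refine Finset.sum_congr rfl fun g _ => ?_
  split_ifs <;> simp

lemma nm_as_sum (J : Subgroup G) (F : G → ℂ) (x : G) [DecidablePred (· ∈ J)] :
    nm J F x = ∑ j : G, if j ∈ J then F (x * j) else 0 := by
  classical
  unfold nm
  symm
  refine Fintype.sum_equiv (Equiv.mulLeft x) _ _ fun j => ?_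
  have h0 : (x⁻¹ * (Equiv.mulLeft x) j ∈ J) ↔ j ∈ J := by
    change x⁻¹ * (x * j) ∈ J ↔ j ∈ J
    rw [inv_mul_cancel_left]
  by_cases hj : j ∈ J
  · rw [if_pos hj, if_pos (h0.2 hj)]; rfl
  · rw [if_neg hj, if_neg (fun h => hj (h0.1 h))]

lemma sum_nm (J : Subgroup G) (F : G → ℂ) : ∑ x, nm J F x = crd J * ∑ x, F x := by
  classical
  have h1 : ∀ x, nm J F x = ∑ j : G, if j ∈ J then F (x * j) else 0 := fun x => nm_as_sum J F x
  simp only [h1]
  rw [Finset.sum_comm]
  have h2 : ∀ j : G, (∑ x : G, if j ∈ J then F (x * j) else 0) =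
      (if j ∈ J then (1 : ℂ) else 0) * ∑ x, F x := by
    intro j
    by_cases hj : j ∈ J
    · simp only [if_pos hj, one_mul]
      exact Fintype.sum_equiv (Equiv.mulRight j) _ _ fun x => rfl
    · simp [if_neg hj]
  rw [Finset.sum_congr rfl fun j _ => h2 j, ← Finset.sum_mul]
  congr 1
  unfold crd
  push_cast
  rfl

lemma sum_nm_le {J B : Subgroup G} (hJB : J ≤ B) (F : G → ℂ) (x : G)
    [DecidablePred (· ∈ B)] :
    (∑ b : G, if b ∈ B then nm J F (x * b) else 0) = crd J * nm B F x := by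
  classical
  have h1 : ∀ y, nm J F y = ∑ j : G, if j ∈ J then F (y * j) else 0 := fun x => nm_as_sum J F x
  have h2 : (∑ b : G, if b ∈ B then nm J F (x * b) else 0) =
      ∑ j : G, ∑ b : G, if j ∈ J then (if b ∈ B then F (x * b * j) else 0) else 0 := by
    rw [Finset.sum_comm]
    refine Finset.sum_congr rfl fun b _ => ?_
    by_cases hb : b ∈ B
    · simp only [if_pos hb]
      rw [h1]
    · simp [if_neg hb]
  rw [h2]
  have h3 : ∀ j : G, (∑ b : G, if j ∈ J then (if b ∈ B then F (x * b * j) else 0) else 0) =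
      (if j ∈ J then (1 : ℂ) else 0) * nm B F x := by
    intro j
    by_cases hj : j ∈ J
    · simp only [if_pos hj, one_mul]
      rw [nm_as_sum B F x]
      refine Fintype.sum_equiv (Equiv.mulRight j) _ _ fun b => ?_
      change (if b ∈ B then F (x * b * j) else 0) = if b * j ∈ B then F (x * (b * j)) else 0
      have h4 : b * j ∈ B ↔ b ∈ B := Subgroup.mul_mem_cancel_right B (hJB hj)
      simp only [h4, mul_assoc]
    · simp [if_neg hj]
  rw [Finset.sum_congr rfl fun j _ => h3 j, ← Finset.sum_mul]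
  congr 1
  unfold crd
  push_cast
  rfl

/-- Descent at an odd prime. -/
lemma descent_odd (Q : AddSubgroup (G → ℂ)) (c : G) (hc : ∀ u ∈ Q, ∀ x, u (x * c) = -u x)
    (F : G → ℂ) (hF : ∑ x, F x = 0) (n : ℕ) (hn : n ≠ 0)
    (h : ∀ g : G, n • (fun x => F x - F (x * g)) ∈ Q) : (2 * n) • F ∈ Q := by
  have hn' : (n : ℂ) ≠ 0 := by exact_mod_cast hn
  have h1 : ∀ g x, F (x * c) - F (x * c * g) = -(F x - F (x * g)) := by
    intro g x
    have h2 := hc _ (h g) x
    simp only [Pi.smul_apply, nsmul_eq_mul] at h2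
    have h3 : (n : ℂ) * (F (x * c) - F (x * c * g)) = n * (-(F x - F (x * g))) := by
      rw [h2]; ring
    exact mul_left_cancel₀ hn' h3
  have h2 : ∀ g, F g + F (g * c) = F 1 + F c := by
    intro g
    have h3 := h1 g 1
    rw [one_mul, one_mul] at h3
    rw [mul_comm g c]
    linear_combination -h3
  have h3 : (Fintype.card G : ℂ) * (F 1 + F c) = 0 := by
    have h4 : ∑ g : G, (F g + F (g * c)) = (Fintype.card G : ℂ) * (F 1 + F c) := by
      rw [Finset.sum_congr rfl fun g _ => h2 g, Finset.sum_const, nsmul_eq_mul]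
      rfl
    rw [← h4, Finset.sum_add_distrib, hF, zero_add]
    have h5 : ∑ g : G, F (g * c) = ∑ g : G, F g :=
      Fintype.sum_equiv (Equiv.mulRight c) _ _ fun x => rfl
    rw [h5, hF]
  have h4 : F 1 + F c = 0 := by
    rcases mul_eq_zero.1 h3 with h5 | h5
    · exact absurd h5 (by exact_mod_cast Fintype.card_ne_zero)
    · exact h5
  have h5 : (2 * n) • F = n • (fun x => F x - F (x * c)) := by
    funext x
    simp only [Pi.smul_apply, nsmul_eq_mul]
    have h6 := h2 x
    rw [h4] at h6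
    push_cast
    linear_combination (n : ℂ) * h6
  rw [h5]
  exact h c

/-- Descent to a subgroup of order prime to the given prime. -/
lemma descent_two (Q : AddSubgroup (G → ℂ)) (B : Subgroup G) [DecidablePred (· ∈ B)] (F : G → ℂ)
    (n m : ℕ) (h : ∀ g : G, n • (fun x => F x - F (x * g)) ∈ Q)
    (hB : m • (fun x => ∑ b : G, if b ∈ B then F (x * b) else 0) ∈ Q) :
    (n * m * crd B) • F ∈ Q := by
  classical
  have h1 : (n * m * crd B) • F = n • (m • (fun x => ∑ b : G, if b ∈ B then F (x * b) else 0)) +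
      ∑ b : G, (if b ∈ B then m else 0) • (n • (fun x => F x - F (x * b))) := by
    funext x
    rw [Pi.add_apply, Finset.sum_apply, Pi.smul_apply, Pi.smul_apply, Pi.smul_apply,
      nsmul_eq_mul, nsmul_eq_mul, nsmul_eq_mul]
    have h2 : ∀ b : G, ((if b ∈ B then m else 0) • (n • (fun x => F x - F (x * b)))) x =
        (if b ∈ B then (1 : ℂ) else 0) * (m * n * (F x - F (x * b))) := by
      intro b
      rw [Pi.smul_apply, Pi.smul_apply, nsmul_eq_mul, nsmul_eq_mul]
      split_ifs <;> push_cast <;> ring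
    rw [Finset.sum_congr rfl fun b _ => h2 b]
    have h3 : ((crd B : ℕ) : ℂ) = ∑ b : G, if b ∈ B then (1 : ℂ) else 0 := by
      unfold crd
      push_cast
      rfl
    push_cast
    rw [h3, Finset.mul_sum, Finset.sum_mul, Finset.mul_sum, Finset.mul_sum,
      ← Finset.sum_add_distrib]
    refine Finset.sum_congr rfl fun b _ => ?_
    split_ifs <;> ring
  rw [h1]
  exact Q.add_mem (Q.nsmul_mem hB n) (Q.sum_mem fun b _ => Q.nsmul_mem (h b) _)

end Pool.Agent.J4.H17.SR
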