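import Mathlib

/-!
# Norm relations in finite abelian groups (project SR, piece GRP)
-/

set_option autoImplicit false
set_option linter.all false

namespace Pool.Agent.J4.H17.SR

def GoodSub {G : Type} [CommGroup G] (l : ℕ) (J : Subgroup G) : Prop :=
  (∀ σ ∈ J, σ ^ l = 1 → σ = 1) ∧ ∀ q : ℕ, q.Prime → q ≠ l → ∀ σ τ : G, σ ^ q ∈ J → τ ^ q ∈ J →
    σ ∈ J ∨ ∃ k : ℕ, τ * (σ ^ k)⁻¹ ∈ J

namespace GRP

open MonoidAlgebra

open Classical in
/-- the norm element -/
noncomputable def nrm {G : Type} [CommGroup G] [Fintype G] (J : Subgroup G) : MonoidAlgebra ℤ G :=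
  ∑ g : G, if g ∈ J then single g (1 : ℤ) else 0

open Classical in
lemma coeff_nrm {G : Type} [CommGroup G] [Fintype G] (J : Subgroup G) (h : G) :
    (nrm J).coeff h = if h ∈ J then 1 else 0 := by
  unfold nrm
  rw [coeff_sum, Finsupp.finsetSum_apply]
  rw [Finset.sum_eq_single h]
  · split_ifs
    · rw [coeff_single, Finsupp.single_eq_same]
    · rfl
  · intro b _ hb
    split_ifs
    · rw [coeff_single, Finsupp.single_apply, if_neg hb]
    · rfl
  · intro h1
    exact absurd (Finset.mem_univ h) h1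

open Classical in
lemma coeff_mul_nrm {G : Type} [CommGroup G] [Fintype G] (c : MonoidAlgebra ℤ G) (J : Subgroup G)
    (h : G) : (c * nrm J).coeff h = ∑ g : G, if g⁻¹ * h ∈ J then c.coeff g else 0 := by
  rw [coeff_mul_apply_left, Finsupp.sum_fintype]
  · refine Finset.sum_congr rfl fun g _ => ?_
    rw [coeff_nrm]
    split_ifs
    · rw [mul_one]
    · rw [mul_zero]
  · intro i
    rw [zero_mul]

/-- the key subgroup -/
lemma good_ker {G : Type} [CommGroup G] [Fintype G] {l m e : ℕ} (hl : l.Prime)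
    (hm : Fintype.card G = l ^ e * m) (hlm : ¬ l ∣ m) {k : Type} [Field k] (χ : G →* k) :
    GoodSub l (χ.toHomUnits.ker ⊓ (powMonoidHom m : G →* G).ker) := by
  have hmem : ∀ σ : G, σ ∈ (χ.toHomUnits.ker ⊓ (powMonoidHom m : G →* G).ker) ↔
      χ σ = 1 ∧ σ ^ m = 1 := by
    intro σ
    rw [Subgroup.mem_inf, MonoidHom.mem_ker, MonoidHom.mem_ker]
    refine and_congr ?_ Iff.rfl
    rw [Units.ext_iff]
    rfl
  have hco : Nat.Coprime l m := (Nat.Prime.coprime_iff_not_dvd hl).2 hlm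
  constructor
  · intro σ hσ h
    rw [hmem] at hσ
    have h1 : orderOf σ ∣ l := orderOf_dvd_of_pow_eq_one h
    have h2 : orderOf σ ∣ m := orderOf_dvd_of_pow_eq_one hσ.2
    have h3 := Nat.dvd_gcd h1 h2
    rw [hco.gcd_eq_one, Nat.dvd_one] at h3
    exact orderOf_eq_one_iff.1 h3
  · intro q hq hql σ τ hσ hτ
    have key : ∀ ρ : G, ρ ^ q ∈ (χ.toHomUnits.ker ⊓ (powMonoidHom m : G →* G).ker) →
        (χ ρ) ^ q = 1 ∧ ρ ^ m = 1 := by
      intro ρ hρ
      rw [hmem, map_pow, ← pow_mul] at hρ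
      refine ⟨hρ.1, ?_⟩
      have h1 : orderOf ρ ∣ q * m := orderOf_dvd_of_pow_eq_one hρ.2
      have h2 : orderOf ρ ∣ l ^ e * m := by
        rw [← hm]
        exact orderOf_dvd_card
      have h3 := Nat.dvd_gcd h1 h2
      rw [Nat.gcd_mul_right] at h3
      have h4 : Nat.gcd q (l ^ e) = 1 := by
        have : Nat.Coprime q l := (Nat.coprime_primes hq hl).2 hql
        exact this.pow_right e
      rw [h4, one_mul] at h3
      exact orderOf_dvd_iff_pow_eq_one.1 h3
    obtain ⟨s1, s2⟩ := key σ hσ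
    obtain ⟨t1, t2⟩ := key τ hτ
    by_cases h1 : χ σ = 1
    · left
      rw [hmem]
      exact ⟨h1, s2⟩
    · right
      have hprim : IsPrimitiveRoot (χ σ) q := by
        have := orderOf_eq_prime s1 h1 (hp := ⟨hq⟩)
        rw [← this]
        exact IsPrimitiveRoot.orderOf _
      have : NeZero q := ⟨hq.ne_zero⟩
      obtain ⟨i, _, hi⟩ := hprim.eq_pow_of_pow_eq_one t1
      refine ⟨i, ?_⟩
      rw [hmem]
      have hne : χ σ ≠ 0 := by
        intro h0
        rw [h0, zero_pow hq.ne_zero] at s1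
        exact zero_ne_one s1
      constructor
      · have h2 : χ (τ * (σ ^ i)⁻¹) * χ (σ ^ i) = χ τ := by
          rw [← map_mul, inv_mul_cancel_right]
        rw [map_pow, hi] at h2
        have h3 : χ τ ≠ 0 := by
          rw [← hi]
          exact pow_ne_zero _ hne
        exact mul_right_cancel₀ h3 (h2.trans (one_mul _).symm)
      · rw [mul_pow, t2, one_mul, inv_pow, ← pow_mul, mul_comm i m, pow_mul, s2, one_pow, inv_one]

lemma card_not_dvd {G : Type} [CommGroup G] [Fintype G] {l : ℕ} (hl : l.Prime) {J : Subgroup G}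
    (hJ : GoodSub l J) : ¬ l ∣ Nat.card J := by
  intro h
  have : Fact l.Prime := ⟨hl⟩
  obtain ⟨x, hx⟩ := exists_prime_orderOf_dvd_card' l h
  have h1 : (x : G) ^ l = 1 := by
    have := pow_orderOf_eq_one x
    rw [hx] at this
    have h2 := congrArg (fun y : J => (y : G)) this
    simpa using h2
  have h2 := hJ.1 x x.2 h1
  have h3 : x = 1 := Subtype.ext h2
  rw [h3, orderOf_one] at hx
  exact hl.one_lt.ne hx

end GRP

open MonoidAlgebra GRP

open Classical in
theorem exists_norm_relation (G : Type) [CommGroup G] [Fintype G] (l : ℕ) (hl : l.Prime) :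
    ∃ (n : ℕ) (N : ℕ) (J : Fin N → Subgroup G) (a : Fin N → G → ℤ), ¬ l ∣ n ∧
      (∀ i, GoodSub l (J i)) ∧
      ∀ h : G, ∑ i, ∑ g : G, (if g⁻¹ * h ∈ J i then a i g else 0) = if h = 1 then (n : ℤ) else 0 := by
  obtain ⟨e, m, hlm, hm⟩ := Nat.exists_eq_pow_mul_and_not_dvd (Fintype.card_ne_zero (α := G)) l
    hl.ne_one
  have : Finite (Subgroup G) := inferInstance
  have : Fintype {J : Subgroup G // GoodSub l J} := Fintype.ofFinite _
  obtain ⟨I, hI⟩ : ∃ I : Ideal (MonoidAlgebra ℤ G),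
    I = Ideal.span (Set.range fun J : {J : Subgroup G // GoodSub l J} => nrm J.1) := ⟨_, rfl⟩
  have htop : I ⊔ Ideal.span {((l : ℕ) : MonoidAlgebra ℤ G)} = ⊤ := by
    by_contra hne
    obtain ⟨M, hM, hle⟩ := Ideal.exists_le_maximal _ hne
    letI : Field (MonoidAlgebra ℤ G ⧸ M) := Ideal.Quotient.field M
    obtain ⟨χ, hχ⟩ : ∃ χ : G →* (MonoidAlgebra ℤ G ⧸ M), ∀ g, χ g = Ideal.Quotient.mk M (single g 1) :=
      ⟨((Ideal.Quotient.mk M : MonoidAlgebra ℤ G →* _)).comp (MonoidAlgebra.of ℤ G), fun g => rfl⟩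
    have hgood := good_ker hl hm hlm χ
    obtain ⟨J, hJ⟩ : ∃ J : Subgroup G, J = χ.toHomUnits.ker ⊓ (powMonoidHom m : G →* G).ker :=
      ⟨_, rfl⟩
    rw [← hJ] at hgood
    have h1 : nrm J ∈ M := by
      apply hle
      apply Ideal.mem_sup_left
      rw [hI]
      exact Ideal.subset_span ⟨⟨J, hgood⟩, rfl⟩
    have h2 : ((l : ℕ) : MonoidAlgebra ℤ G) ∈ M := by
      apply hle
      apply Ideal.mem_sup_right
      exact Ideal.mem_span_singleton_self _
    have h3 : ((l : ℕ) : MonoidAlgebra ℤ G ⧸ M) = 0 := by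
      rw [← map_natCast (Ideal.Quotient.mk M)]
      exact Ideal.Quotient.eq_zero_iff_mem.2 h2
    have h4 : ((Nat.card J : ℕ) : MonoidAlgebra ℤ G ⧸ M) = 0 := by
      have h5 := Ideal.Quotient.eq_zero_iff_mem.2 h1
      rw [← h5]
      unfold nrm
      rw [map_sum]
      have h6 : ∀ g : G, Ideal.Quotient.mk M (if g ∈ J then single g (1 : ℤ) else 0) =
          if g ∈ J then 1 else 0 := by
        intro g
        split_ifs with hg
        · rw [← hχ]
          rw [hJ, Subgroup.mem_inf, MonoidHom.mem_ker] at hg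
          exact congrArg Units.val hg.1
        · exact map_zero _
      simp only [h6]
      rw [Finset.sum_boole, Nat.card_eq_fintype_card, Fintype.card_subtype]
    have hco : Nat.Coprime l (Nat.card J) := (Nat.Prime.coprime_iff_not_dvd hl).2
      (card_not_dvd hl hgood)
    obtain ⟨x, y, hxy⟩ := Nat.isCoprime_iff_coprime.2 hco
    have h7 := congrArg (Int.cast : ℤ → MonoidAlgebra ℤ G ⧸ M) hxy
    push_cast at h7
    rw [h3, h4, mul_zero, mul_zero, add_zero] at h7
    exact zero_ne_one h7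
  have hfin : Module.Finite ℤ (MonoidAlgebra ℤ G) :=
    Module.Finite.of_surjective
      ((MonoidAlgebra.coeffAddEquiv (R := ℤ) (M := G)).symm.toAddMonoidHom.toIntLinearMap)
      (MonoidAlgebra.coeffAddEquiv (R := ℤ) (M := G)).symm.surjective
  have hfin2 : Module.Finite ℤ (MonoidAlgebra ℤ G ⧸ I) :=
    Module.Finite.of_surjective ((Ideal.Quotient.mk I).toAddMonoidHom.toIntLinearMap)
      Ideal.Quotient.mk_surjective
  obtain ⟨r, hr1, hr2⟩ := Submodule.exists_sub_one_mem_and_smul_eq_zero_of_fg_of_le_smul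
    (Ideal.span {(l : ℤ)}) (⊤ : Submodule ℤ (MonoidAlgebra ℤ G ⧸ I)) hfin2.fg_top (by
      intro z _
      obtain ⟨w, rfl⟩ := Ideal.Quotient.mk_surjective z
      have h1 : w ∈ I ⊔ Ideal.span {((l : ℕ) : MonoidAlgebra ℤ G)} := by
        rw [htop]
        exact Submodule.mem_top
      obtain ⟨x, hx, y, hy, rfl⟩ := Submodule.mem_sup.1 h1
      obtain ⟨c, rfl⟩ := Ideal.mem_span_singleton'.1 hy
      have h2 : Ideal.Quotient.mk I (x + c * ((l : ℕ) : MonoidAlgebra ℤ G)) =
          (l : ℤ) • Ideal.Quotient.mk I c := by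
        rw [map_add, Ideal.Quotient.eq_zero_iff_mem.2 hx, zero_add, map_mul, map_natCast,
          zsmul_eq_mul, mul_comm]
        norm_cast
      rw [h2]
      exact Submodule.smul_mem_smul (Ideal.mem_span_singleton_self _) Submodule.mem_top)
  have hrl : ¬ (l : ℤ) ∣ r := by
    intro h
    have h1 := Ideal.mem_span_singleton.1 hr1
    have h2 : (l : ℤ) ∣ 1 := by
      have := dvd_sub h h1
      rwa [sub_sub_cancel] at this
    have h3 : l ∣ 1 := by exact_mod_cast h2
    exact hl.one_lt.ne' (Nat.dvd_one.1 h3)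
  have hrI : ((r : ℤ) : MonoidAlgebra ℤ G) ∈ I := by
    have h1 := hr2 (Ideal.Quotient.mk I 1) Submodule.mem_top
    rw [map_one, zsmul_eq_mul, mul_one, ← map_intCast (Ideal.Quotient.mk I)] at h1
    exact Ideal.Quotient.eq_zero_iff_mem.1 h1
  have hnI : ((r.natAbs : ℕ) : MonoidAlgebra ℤ G) ∈ I := by
    have h1 : (((r.natAbs : ℕ) : ℤ) : MonoidAlgebra ℤ G) ∈ I := by
      rcases Int.natAbs_eq r with h | h
      · rw [← h]
        exact hrI
      · have h2 : ((r.natAbs : ℕ) : ℤ) = -r := by omega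
        rw [h2, Int.cast_neg]
        exact I.neg_mem hrI
    rwa [Int.cast_natCast] at h1
  rw [hI] at hnI
  obtain ⟨c, hc⟩ := Ideal.mem_span_range_iff_exists_fun.1 hnI
  let eq := (Fintype.equivFin {J : Subgroup G // GoodSub l J}).symm
  refine ⟨r.natAbs, Fintype.card {J : Subgroup G // GoodSub l J}, fun i => (eq i).1,
    fun i g => (c (eq i)).coeff g, ?_, fun i => (eq i).2, fun h => ?_⟩
  · intro h
    exact hrl (Int.natCast_dvd.2 h)
  · have h1 : ∀ i, ∑ g : G, (if g⁻¹ * h ∈ (eq i).1 then (c (eq i)).coeff g else 0) =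
        (c (eq i) * nrm (eq i).1).coeff h := fun i => (coeff_mul_nrm _ _ _).symm
    simp only [h1]
    rw [Equiv.sum_comp eq (fun J => (c J * nrm J.1).coeff h)]
    have h2 := congrArg (fun x : MonoidAlgebra ℤ G => x.coeff h) hc
    simp only [coeff_sum, Finsupp.finsetSum_apply] at h2
    rw [h2]
    have h3 : ((r.natAbs : ℕ) : MonoidAlgebra ℤ G) = single 1 ((r.natAbs : ℕ) : ℤ) := rfl
    rw [h3, coeff_single, Finsupp.single_apply]
    by_cases h4 : h = 1
    · rw [if_pos h4, if_pos h4.symm]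
    · rw [if_neg h4, if_neg (Ne.symm h4)]

end Pool.Agent.J4.H17.SR
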