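import Pool.Agent.J4.H17.SR.Units
import Pool.Agent.J4.H17.SR.GRP
import Pool.Agent.J4.H17.SR.CNT
import Pool.Agent.J4.H99.SRins.Fix
import Pool.Agent.J4.H99.SRins.Tor
import Pool.Agent.J4.H17.SR.Comb
import Pool.Agent.J4.H17.SR.Dz
import Pool.Agent.J4.H17.SR.Fun

/-! The descent from larger sets of places. -/

set_option autoImplicit false

namespace Pool.Agent.J4.H17.SR
open NumberField
open Pool.Agent.K4H33.SK (Qbar GQ Fixes IsZeta AbelianRoot IsTorsionOrder cnt fixes_iff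
  mem_of_fixed agree_iff exists_conj)
open Pool.Agent.J4.H99.SRins (exists_quotient exists_torsion)

variable {ι : Qbar →+* ℂ} {K H : Sub} [NumberField K] {W : ℕ} {art : Ideal (𝓞 K) → GQ}
  {G : Type} [CommGroup G] [Fintype G] {π : K.fixingSubgroup →* G} {rep : G → K.fixingSubgroup}

/-- Complex conjugation at a real place inverts the units. -/
lemma conj_neg (hW : 0 < W) (hw : ∃ w : Qbar →+* ℂ, NotAbove ι K w ∧ ∀ x ∈ K, (w x).im = 0)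
    (π : K.fixingSubgroup →* G) (hπs : Function.Surjective π) :
    ∃ c : G, ∀ u ∈ unitFunctions ι K H W hW π, ∀ x, u (x * c) = -u x := by
  obtain ⟨w, hw, hreal⟩ := hw
  obtain ⟨c, hc⟩ := exists_conj w
  have hcK : Fixes K c := by
    intro x hx
    apply w.injective
    rw [hc x]
    exact Complex.conj_eq_iff_im.2 (hreal x hx)
  refine ⟨π ⟨c, fixes_iff.1 hcK⟩, ?_⟩
  rintro u ⟨ε, hε, hε2⟩ x
  obtain ⟨σ, rfl⟩ := hπs x
  have h1 : c ε = ε⁻¹ := by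
    have h2 : ‖w ε‖ = 1 := hε.abs w hw
    have h3 : w (ε * c ε) = w 1 := by
      rw [map_mul, hc, Complex.mul_conj, Complex.normSq_eq_norm_sq, h2, map_one]
      simp
    have h4 : ε * c ε = 1 := w.injective h3
    exact eq_inv_of_mul_eq_one_right h4
  have h5 := hε2 (σ * ⟨c, fixes_iff.1 hcK⟩)
  have h6 : (((σ * ⟨c, fixes_iff.1 hcK⟩ : K.fixingSubgroup) : GQ) ε) = ((σ : GQ) ε)⁻¹ := by
    change (σ : GQ) (c ε) = _
    rw [h1, map_inv₀]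
  rw [h6, map_inv₀, norm_inv, Real.log_inv, mul_neg, Complex.ofReal_neg, hε2 σ, map_mul] at h5
  have hW' : (W : ℂ) ≠ 0 := by exact_mod_cast hW.ne'
  have h7 : (W : ℂ) * u (π σ * π ⟨c, fixes_iff.1 hcK⟩) = W * (-u (π σ)) := by
    linear_combination h5
  exact mul_left_cancel₀ hW' h7

variable (H art rep) in
/-- The coefficients of the partial zeta functions. -/
noncomputable def cG (𝔤 : Ideal (𝓞 K)) (g : G) : ℕ → ℕ := cnt K H 𝔤 art (rep g)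

variable (H art rep) in
/-- The derivatives at zero. -/
noncomputable def dG (𝔤 : Ideal (𝓞 K)) (g : G) : ℂ := dz (cG H art rep 𝔤 g)

variable (H art rep) in
/-- The values at zero. -/
noncomputable def vG (𝔤 : Ideal (𝓞 K)) (g : G) : ℂ := vz (cG H art rep 𝔤 g)

lemma cG_eq (hπ : ∀ σ : K.fixingSubgroup, π σ = 1 ↔ Fixes H σ) (hrep : ∀ g, π (rep g) = g)
    (𝔤 : Ideal (𝓞 K)) (σ : K.fixingSubgroup) : cnt K H 𝔤 art σ = cG H art rep 𝔤 (π σ) := by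
  funext n
  refine Pool.Agent.K4H33.SK.cnt_congr K H 𝔤 art ?_ n
  rw [agree_iff]
  exact (hπ ((rep (π σ))⁻¹ * σ)).1 (by rw [map_mul, map_inv, hrep, inv_mul_cancel])

/-- Adding a prime. -/
lemma euler_G (hπ : ∀ σ : K.fixingSubgroup, π σ = 1 ↔ Fixes H σ) (hrep : ∀ g, π (rep g) = g)
    (𝔤 𝔮 : Ideal (𝓞 K)) (hq : 𝔮.IsPrime) (hq0 : 𝔮 ≠ ⊥) (hqg : IsCoprime 𝔮 𝔤)
    (hmul : ∀ 𝔟 𝔠 : Ideal (𝓞 K), IsCoprime 𝔟 𝔤 → IsCoprime 𝔠 𝔤 →
      ∀ x ∈ H, art (𝔟 * 𝔠) x = art 𝔟 (art 𝔠 x))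
    (hfix : Fixes K (art 𝔮)) (hc : ∀ g, ∃ Z, IsZeta (cG H art rep 𝔤 g) Z) (g : G) :
    (∃ Z, IsZeta (cG H art rep (𝔤 * 𝔮) g) Z) ∧
    dG H art rep (𝔤 * 𝔮) g = dG H art rep 𝔤 g - dG H art rep 𝔤 (g * (π ⟨art 𝔮, fixes_iff.1 hfix⟩)⁻¹)
      + Real.log (Ideal.absNorm 𝔮) * vG H art rep 𝔤 (g * (π ⟨art 𝔮, fixes_iff.1 hfix⟩)⁻¹) ∧
    vG H art rep (𝔤 * 𝔮) g =
      vG H art rep 𝔤 g - vG H art rep 𝔤 (g * (π ⟨art 𝔮, fixes_iff.1 hfix⟩)⁻¹) := by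
  have hN : 1 ≤ Ideal.absNorm 𝔮 := Nat.one_le_iff_ne_zero.2 fun h => hq0 (Ideal.absNorm_eq_zero_iff.1 h)
  refine add_prime _ (cG H art rep 𝔤 (g * (π ⟨art 𝔮, fixes_iff.1 hfix⟩)⁻¹)) _
    (Ideal.absNorm 𝔮) hN ?_ (hc g) (hc _)
  intro n hn
  have h1 := cnt_euler K H 𝔤 𝔮 hq hq0 hqg art hmul (rep g) n hn
  have h2 : cnt K H 𝔤 art ((art 𝔮)⁻¹ * (rep g : GQ)) =
      cG H art rep 𝔤 (g * (π ⟨art 𝔮, fixes_iff.1 hfix⟩)⁻¹) := by
    have h3 := cG_eq (art := art) hπ hrep 𝔤 ((⟨art 𝔮, fixes_iff.1 hfix⟩)⁻¹ * rep g)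
    rw [map_mul, map_inv, hrep, mul_comm] at h3
    exact h3
  rw [h2] at h1
  exact h1

variable (H art rep) in
/-- What the conjecture gives for the subfield belonging to `J`. -/
def PP (Q : AddSubgroup (G → ℂ)) (n : ℕ) (J : Subgroup G) (𝔤 : Ideal (𝓞 K)) : Prop :=
  (∀ x, nm J (vG H art rep 𝔤) x = 0) ∧ n • (fun x => nm J (dG H art rep 𝔤) x) ∈ Q

lemma PP.mul {Q : AddSubgroup (G → ℂ)} {n : ℕ} {J : Subgroup G} {𝔤 : Ideal (𝓞 K)}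
    (h : PP H art rep Q n J 𝔤) (k : ℕ) : PP H art rep Q (k * n) J 𝔤 :=
  ⟨h.1, by rw [mul_smul]; exact Q.nsmul_mem h.2 k⟩

/-- The conjecture for a subfield. -/
lemma PP_of_stark (hWH : IsTorsionOrder H W) {L : Sub} (hLH : L ≤ H) {J : Subgroup G}
    (hπ : ∀ σ : K.fixingSubgroup, π σ = 1 ↔ Fixes H σ) (hrep : ∀ g, π (rep g) = g)
    (hJ : ∀ σ : K.fixingSubgroup, Fixes L σ ↔ π σ ∈ J) {n : ℕ} {𝔤 : Ideal (𝓞 K)}
    (hart : ∀ 𝔟, IsCoprime 𝔟 𝔤 → Fixes K (art 𝔟))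
    (hc : ∀ g, ∃ Z, IsZeta (cG H art rep 𝔤 g) Z) (hS : StarkUpTo n ι K L 𝔤 art) :
    PP H art rep (unitFunctions ι K H W hWH.1 π) n J 𝔤 := by
  classical
  obtain ⟨W', hW', d, hd⟩ := exists_torsion hLH hWH
  obtain ⟨Z, ε, hεL, hε0, hlim, hi, hi', ha, hr⟩ := hS W' hW'
  have hcnt : ∀ (σ : K.fixingSubgroup), dz (cnt K L 𝔤 art σ) = nm J (dG H art rep 𝔤) (π σ) ∧
      vz (cnt K L 𝔤 art σ) = nm J (vG H art rep 𝔤) (π σ) := by
    intro σ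
    obtain ⟨-, h1, h2⟩ := comb Finset.univ (fun g : G => if (π σ)⁻¹ * g ∈ J then (1 : ℂ) else 0)
      (cG H art rep 𝔤) (cnt K L 𝔤 art σ) (fun g _ => hc g) (by
        intro k _
        rw [cnt_sum K H L 𝔤 art hart hLH G π hπ J hJ rep hrep σ k]
        push_cast
        refine Finset.sum_congr rfl fun g _ => ?_
        unfold cG
        split_ifs <;> simp)
    rw [h1, h2]
    constructor
    · unfold nm dG
      refine Finset.sum_congr rfl fun g _ => ?_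
      split_ifs <;> simp
    · unfold nm vG
      refine Finset.sum_congr rfl fun g _ => ?_
      split_ifs <;> simp
  have hlim' : ∀ σ : K.fixingSubgroup, nm J (vG H art rep 𝔤) (π σ) = 0 ∧
      ((localDegree ι K * Real.log ‖ι ((σ : GQ) ε)‖ : ℝ) : ℂ) =
        -((n * W' : ℕ) : ℂ) * nm J (dG H art rep 𝔤) (π σ) := by
    intro σ
    obtain ⟨h1, h2, h3⟩ := hlim σ (fixes_iff.2 σ.2)
    have h4 : vz (cnt K L 𝔤 art σ) = Z σ 0 := vz_eq h1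
    have h5 : dz (cnt K L 𝔤 art σ) = deriv (Z σ) 0 := dz_eq h1
    rw [(hcnt σ).2] at h4
    rw [(hcnt σ).1] at h5
    rw [h4, h5]
    exact ⟨h2, h3⟩
  refine ⟨?_, ?_⟩
  · intro x
    have := (hlim' (rep x)).1
    rwa [hrep] at this
  · have h1 : IsUnitFor ι K L W' ε := ⟨hεL, hε0, hi, hi', ha, hr⟩
    have h2 := h1.raise (H := H) (d := d) (by rw [← hd]; exact hWH.1) hLH
    rw [← hd] at h2
    refine ⟨ε ^ d, h2, fun σ => ?_⟩
    have h3 : ((localDegree ι K * Real.log ‖ι ((σ : GQ) (ε ^ d))‖ : ℝ) : ℂ) =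
        (d : ℂ) * ((localDegree ι K * Real.log ‖ι ((σ : GQ) ε)‖ : ℝ) : ℂ) := by
      rw [map_pow, map_pow, norm_pow, Real.log_pow]
      push_cast
      ring
    rw [h3, (hlim' σ).2]
    have h4 : (W : ℂ) = (W' : ℂ) * (d : ℂ) := by exact_mod_cast hd
    rw [h4, Pi.smul_apply, nsmul_eq_mul]
    push_cast
    ring

end Pool.Agent.J4.H17.SR
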