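import Pool.Agent.J4.H17.SR.Defs
import Pool.Agent.K4H33.SK.Zeta

set_option autoImplicit false

namespace Pool.Agent.J4.H17.SR
open NumberField
open Pool.Agent.K4H33.SK (Qbar GQ Fixes IsZeta AbelianRoot IsTorsionOrder IsArtin cnt mem_of_fixed)

namespace DOWNU

theorem exists_prim (n : ℕ) (hn : 0 < n) : ∃ ζ : Qbar, IsPrimitiveRoot ζ n := by
  haveI : NeZero n := ⟨hn.ne'⟩
  haveI : NeZero (n : Qbar) := ⟨by exact_mod_cast hn.ne'⟩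
  exact HasEnoughRootsOfUnity.exists_primitiveRoot Qbar n

theorem exists_exp (W : ℕ) (hW : 0 < W) (h : GQ) :
    ∃ d : ℕ, ∀ ξ : Qbar, ξ ^ W = 1 → h ξ = ξ ^ d := by
  obtain ⟨ζ, hζ⟩ := exists_prim W hW
  haveI : NeZero W := ⟨hW.ne'⟩
  have h1 : (h ζ) ^ W = 1 := by rw [← map_pow, hζ.pow_eq_one, map_one]
  obtain ⟨d, _, hd⟩ := hζ.eq_pow_of_pow_eq_one h1
  refine ⟨d, fun ξ hξ => ?_⟩
  obtain ⟨i, _, hi⟩ := hζ.eq_pow_of_pow_eq_one hξ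
  rw [← hi, map_pow, ← hd, ← pow_mul, ← pow_mul, mul_comm]

end DOWNU

open DOWNU in
theorem unit_down (K L H : Sub) [FiniteDimensional ℚ H] (hKL : K ≤ L) (hLH : L ≤ H)
    (hab : AbelianOver K H) {W W₁ : ℕ} (hW : IsTorsionOrder H W) (hW₁ : IsTorsionOrder L W₁)
    (κ : Qbar) (hκ : κ ≠ 0) (hη : κ ^ W ∈ L)
    (hroot : ∀ σ τ : GQ, Fixes K σ → Fixes K τ → σ (τ κ) = τ (σ κ)) :
    ∃ ξ : Qbar, ξ ^ W = 1 ∧ ξ * κ ^ W₁ ∈ L := by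
  have hW0 := hW.1
  let A : AddSubgroup ℤ := {
    carrier := {m | ∃ ξ : Qbar, ξ ^ W = 1 ∧ ∀ g : GQ, Fixes L g → g (ξ * κ ^ m) = ξ * κ ^ m}
    zero_mem' := ⟨1, one_pow _, fun g _ => by simp⟩
    add_mem' := by
      rintro m n ⟨ξ, h1, h2⟩ ⟨ξ', h1', h2'⟩
      refine ⟨ξ * ξ', by rw [mul_pow, h1, h1', one_mul], fun g hg => ?_⟩
      rw [zpow_add₀ hκ, show ξ * ξ' * (κ ^ m * κ ^ n) = (ξ * κ ^ m) * (ξ' * κ ^ n) by ring,
        map_mul, h2 g hg, h2' g hg]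
    neg_mem' := by
      rintro m ⟨ξ, h1, h2⟩
      refine ⟨ξ⁻¹, by rw [inv_pow, h1, inv_one], fun g hg => ?_⟩
      rw [zpow_neg, ← mul_inv, map_inv₀, h2 g hg] }
  have hWA : (W : ℤ) ∈ A := ⟨1, one_pow _, fun g hg => by
    rw [one_mul, zpow_natCast]; exact hg _ hη⟩
  have hdA : ∀ (h : GQ) (d : ℕ), Fixes L h → (∀ ξ : Qbar, ξ ^ W = 1 → h ξ = ξ ^ d) →
      (d : ℤ) - 1 ∈ A := by
    intro h d hh hd
    obtain ⟨z, hgk⟩ : ∃ z : GQ → Qbar, ∀ g, g κ = κ * z g :=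
      ⟨fun g => g κ / κ, fun g => by field_simp⟩
    have hg0 : ∀ g : GQ, g κ ≠ 0 := fun g => (map_ne_zero g).2 hκ
    have hz0 : ∀ g, z g ≠ 0 := fun g hz => hg0 g (by rw [hgk g, hz, mul_zero])
    have hz : ∀ g, Fixes L g → z g ^ W = 1 := by
      intro g hg
      have h1 : (g κ) ^ W = κ ^ W := by rw [← map_pow]; exact hg _ hη
      rw [hgk g, mul_pow] at h1
      exact mul_left_cancel₀ (pow_ne_zero W hκ) (by rw [h1, mul_one])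
    refine ⟨(z h)⁻¹, by rw [inv_pow, hz h hh, inv_one], fun g hg => ?_⟩
    have e1 : h (g κ) = κ * z h * z g ^ d := by rw [hgk g, map_mul, hgk h, hd _ (hz g hg)]
    have e2 : g (h κ) = κ * z g * g (z h) := by rw [hgk h, map_mul, hgk g]
    have e3 : g (h κ) = h (g κ) := hroot g h (hg.mono hKL) (hh.mono hKL)
    have e4 : g (z h) = z h * z g ^ ((d : ℤ) - 1) := by
      rw [zpow_sub₀ (hz0 g), zpow_one, zpow_natCast]
      have h5 : z g * g (z h) = z h * z g ^ d := by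
        apply mul_left_cancel₀ hκ
        rw [← mul_assoc, ← mul_assoc, ← e2, ← e1, e3]
      rw [mul_div_assoc', eq_div_iff (hz0 g), mul_comm, h5]
    have h6 : z g ^ ((d : ℤ) - 1) ≠ 0 := zpow_ne_zero _ (hz0 g)
    rw [map_mul, map_inv₀, map_zpow₀, e4, hgk g, mul_zpow, mul_inv]
    field_simp
  obtain ⟨a, ha⟩ := Int.subgroup_cyclic A
  have hmem : ∀ m : ℤ, m ∈ A ↔ a ∣ m := by
    intro m
    rw [ha, AddSubgroup.mem_closure_singleton]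
    constructor
    · rintro ⟨k, hk⟩
      exact ⟨k, by rw [← hk, smul_eq_mul, mul_comm]⟩
    · rintro ⟨k, hk⟩
      exact ⟨k, by rw [hk, smul_eq_mul, mul_comm]⟩
  have haW : a.natAbs ∣ W := Int.natAbs_dvd_natAbs.2 ((hmem _).1 hWA)
  have ha0 : 0 < a.natAbs := Nat.pos_of_dvd_of_pos haW hW0
  obtain ⟨ζ, hζ⟩ := exists_prim a.natAbs ha0
  have hζW : ζ ^ W = 1 := (hζ.pow_eq_one_iff_dvd W).2 haW
  have hζL : ζ ∈ L := by
    refine mem_of_fixed L fun h hh => ?_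
    obtain ⟨d, hd⟩ := exists_exp W hW0 h
    rw [hd ζ hζW]
    have h1 : a ∣ (d : ℤ) - 1 := (hmem _).1 (hdA h d hh hd)
    have h2 : ζ ^ ((d : ℤ) - 1) = 1 :=
      (hζ.zpow_eq_one_iff_dvd _).2 (Int.natAbs_dvd.2 h1)
    have h3 : ζ ≠ 0 := hζ.ne_zero ha0.ne'
    calc ζ ^ d = ζ ^ ((d : ℤ) - 1 + 1) := by rw [sub_add_cancel, zpow_natCast]
      _ = ζ := by rw [zpow_add₀ h3, h2, one_mul, zpow_one]
  have h1 : ζ ^ W₁ = 1 := (hW₁.2 ζ).1 ⟨hζL, a.natAbs, ha0, hζ.pow_eq_one⟩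
  have h2 : a.natAbs ∣ W₁ := (hζ.pow_eq_one_iff_dvd W₁).1 h1
  obtain ⟨ξ, h3, h4⟩ := (hmem (W₁ : ℤ)).2 (Int.natAbs_dvd.1 (Int.natCast_dvd_natCast.2 h2))
  refine ⟨ξ, h3, mem_of_fixed L fun g hg => ?_⟩
  have := h4 g hg
  rwa [zpow_natCast] at this

end Pool.Agent.J4.H17.SR
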