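import Pool.Agent.J4.H17.SR.Defs

/-! Project SR (helper17), piece TOR2 (helper89): the number of roots of unity of a number field. -/

set_option autoImplicit false

namespace Pool.Agent.J4.H17.SR
open NumberField
open Pool.Agent.K4H33.SK (Qbar GQ Fixes IsZeta AbelianRoot IsTorsionOrder IsArtin cnt)

/-- A number field has finitely many roots of unity, and they are the `W`-th roots of unity for some `W`. -/
theorem exists_torsionOrder (H : Sub) [FiniteDimensional ℚ H] : ∃ W : ℕ, IsTorsionOrder H W := by
  have : NumberField H := { to_charZero := inferInstance, to_finiteDimensional := inferInstance }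
  obtain ⟨g, hg⟩ := IsCyclic.exists_generator (α := Units.torsion H)
  have hord : orderOf g = Units.torsionOrder H := orderOf_eq_card_of_forall_mem_zpowers hg
  have hW : 0 < Units.torsionOrder H := Units.torsionOrder_pos H
  have hprim : IsPrimitiveRoot g (Units.torsionOrder H) := hord ▸ IsPrimitiveRoot.orderOf g
  let φ : Units.torsion H →* Qbar :=
    ((algebraMap H Qbar).toMonoidHom.comp ((algebraMap (𝓞 H) H).toMonoidHom.comp
      (Units.coeHom (𝓞 H)))).comp (Units.torsion H).subtype
  have hφ : Function.Injective φ := by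
    have h1 : Function.Injective (algebraMap H Qbar) := (algebraMap H Qbar).injective
    have h2 : Function.Injective (algebraMap (𝓞 H) H) := RingOfIntegers.coe_injective
    intro a b hab
    exact Subtype.ext (Units.ext (h2 (h1 hab)))
  have hφH : ∀ x, φ x ∈ H := fun x => (algebraMap (𝓞 H) H ((x : (𝓞 H)ˣ) : 𝓞 H)).2
  have hprim' : IsPrimitiveRoot (φ g) (Units.torsionOrder H) := hprim.map_of_injective hφ
  refine ⟨Units.torsionOrder H, hW, fun ξ => ⟨?_, fun h => ?_⟩⟩
  · rintro ⟨hξ, n, hn, h⟩
    -- the unit of the ring of integers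
    have hint : IsIntegral ℤ (⟨ξ, hξ⟩ : H) :=
      IsIntegral.of_pow hn (by
        have : (⟨ξ, hξ⟩ : H) ^ n = 1 := Subtype.ext (by simpa using h)
        rw [this]; exact isIntegral_one)
    obtain ⟨z, hz⟩ := (IsIntegralClosure.isIntegral_iff (A := 𝓞 H)).1 hint
    have hzξ : algebraMap H Qbar (algebraMap (𝓞 H) H z) = ξ := by rw [hz]; rfl
    have hpow : z ^ n = 1 := by
      apply RingOfIntegers.coe_injective
      apply (algebraMap H Qbar).injective
      rw [map_pow, map_pow, map_one, map_one, hzξ, h]
    have hu : Units.ofPowEqOne z n hpow hn.ne' ∈ Units.torsion H := by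
      rw [Units.torsion, CommGroup.mem_torsion, isOfFinOrder_iff_pow_eq_one]
      exact ⟨n, hn, Units.ext (by simp)⟩
    have h3 : (⟨_, hu⟩ : Units.torsion H) ^ Units.torsionOrder H = 1 :=
      pow_card_eq_one' (x := (⟨_, hu⟩ : Units.torsion H))
    have h4 : φ ⟨_, hu⟩ = ξ := hzξ
    rw [← h4, ← map_pow, h3, map_one]
  · have : NeZero (Units.torsionOrder H) := ⟨hW.ne'⟩
    obtain ⟨i, -, hi⟩ := hprim'.eq_pow_of_pow_eq_one h
    refine ⟨?_, _, hW, h⟩
    rw [← hi]
    exact pow_mem (hφH g) i

end Pool.Agent.J4.H17.SR
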