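import Pool.Agent.J4.H17.SR.Core
import Pool.Agent.J4.H17.SR.DOWNU
import Pool.Agent.J4.H17.SR.TOR2

/-! The descent of the conjecture to subextensions. -/

set_option autoImplicit false

namespace Pool.Agent.J4.H17.SR
open Two
open NumberField
open Pool.Agent.K4H33.SK (Qbar GQ Fixes IsZeta AbelianRoot IsTorsionOrder cnt fixes_iff
  mem_of_fixed agree_iff)
open Pool.Agent.K4H33.SK.Stmt (Ideals IsArtin)
open Pool.Agent.J4.H99.SRins (exists_quotient)

/-- The roots of unity of a subfield. -/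
theorem torsion_dvd {L H : Sub} (hLH : L ≤ H) {W W₁ : ℕ} (hW : IsTorsionOrder H W)
    (hW₁ : IsTorsionOrder L W₁) : W₁ ∣ W := by
  obtain ⟨ζ, hζ⟩ := DOWNU.exists_prim W₁ hW₁.1
  have h1 := (hW₁.2 ζ).2 hζ.pow_eq_one
  exact (hζ.pow_eq_one_iff_dvd W).1 ((hW.2 ζ).1 ⟨hLH h1.1, h1.2⟩)

theorem stark_down (ι : Qbar →+* ℂ) (K L H : Sub) [NumberField K] [FiniteDimensional ℚ H]
    (hKL : K ≤ L) (hLH : L ≤ H) (hab : AbelianOver K H) (𝔣 : Ideals K) (art : Ideals K → GQ)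
    (hart : IsArtin K H 𝔣 art) (n : ℕ) (h : StarkUpTo n ι K H 𝔣 art) :
    StarkUpTo n ι K L 𝔣 art := by
  classical
  intro W₁ hW₁
  have hKH : K ≤ H := hKL.trans hLH
  obtain ⟨W, hW⟩ := exists_torsionOrder H
  obtain ⟨e, he⟩ := torsion_dvd hLH hW hW₁
  have hW0 : 0 < W := hW.1
  have hW10 : 0 < W₁ := hW₁.1
  have he0 : 0 < e := Nat.pos_of_ne_zero fun h0 => by rw [h0, mul_zero] at he; omega
  obtain ⟨Z, ε, hεH, hε0, hlim, hi, hi', ha, hr⟩ := h W hW
  obtain ⟨G, instG, instF, π, hπs, hπ, -⟩ := exists_quotient K H hKH hab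
  obtain ⟨rep, hrep⟩ : ∃ rep : G → K.fixingSubgroup, ∀ g, π (rep g) = g :=
    ⟨Function.surjInv hπs, Function.surjInv_eq hπs⟩
  have hrepK : ∀ g, Fixes K (rep g : GQ) := fun g => fixes_iff.2 (rep g).2
  -- the subgroup of `L`
  obtain ⟨J, hJ⟩ : ∃ J : Subgroup G, ∀ σ : K.fixingSubgroup, Fixes L σ ↔ π σ ∈ J := by
    refine ⟨(L.fixingSubgroup.subgroupOf K.fixingSubgroup).map π, fun σ => ?_⟩
    constructor
    · intro hσ
      exact Subgroup.mem_map_of_mem π (Subgroup.mem_subgroupOf.2 (fixes_iff.1 hσ))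
    · intro hσ
      obtain ⟨τ, hτ, hτσ⟩ := Subgroup.mem_map.1 hσ
      have h1 : Fixes H ((τ⁻¹ * σ : K.fixingSubgroup) : GQ) :=
        (hπ _).1 (by rw [map_mul, map_inv, hτσ, inv_mul_cancel])
      have h2 : Fixes L (τ : GQ) := fixes_iff.2 (Subgroup.mem_subgroupOf.1 hτ)
      have h3 : Fixes L ((τ⁻¹ * σ : K.fixingSubgroup) : GQ) := h1.mono hLH
      have h4 := h2.mul h3
      have h5 : (τ : GQ) * ((τ⁻¹ * σ : K.fixingSubgroup) : GQ) = (σ : GQ) := by
        rw [← Subgroup.coe_mul, mul_inv_cancel_left]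
      rwa [h5] at h4
  have hagree : ∀ (τ : K.fixingSubgroup) (j : G), ∀ x ∈ H,
      (τ : GQ) ((rep j : GQ) x) = (rep (π τ * j) : GQ) x := by
    intro τ j
    have h1 : Fixes H (((rep (π τ * j))⁻¹ * (τ * rep j) : K.fixingSubgroup) : GQ) :=
      (hπ _).1 (by rw [map_mul, map_inv, hrep, map_mul, hrep, inv_mul_cancel])
    exact (agree_iff (F := H) (σ := ((τ * rep j : K.fixingSubgroup) : GQ))
      (τ := (rep (π τ * j) : GQ))).2 h1
  -- the root of the norm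
  obtain ⟨lam, hlam⟩ := exists_root hW0 ε
  have hlam0 : lam ≠ 0 := by
    rintro rfl
    exact hε0 (by rw [← hlam, zero_pow hW0.ne'])
  obtain ⟨κ, hκdef⟩ : ∃ κ : Qbar, κ = ∏ j : G, if j ∈ J then (rep j : GQ) lam else 1 := ⟨_, rfl⟩
  have hκ0 : κ ≠ 0 := by
    rw [hκdef]
    refine Finset.prod_ne_zero_iff.2 fun j _ => ?_
    split_ifs
    · exact (map_ne_zero (rep j : GQ)).2 hlam0
    · exact one_ne_zero
  have hκW : κ ^ W = ∏ j : G, if j ∈ J then (rep j : GQ) ε else 1 := by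
    rw [hκdef, ← Finset.prod_pow]
    refine Finset.prod_congr rfl fun j _ => ?_
    split_ifs
    · rw [← map_pow, hlam]
    · rw [one_pow]
  have hη : κ ^ W ∈ L := by
    refine mem_of_fixed L fun τ hτ => ?_
    have hτK : τ ∈ K.fixingSubgroup := fixes_iff.1 (hτ.mono hKL)
    have hτJ : π ⟨τ, hτK⟩ ∈ J := (hJ ⟨τ, hτK⟩).1 hτ
    rw [hκW, map_prod]
    refine Fintype.prod_equiv (Equiv.mulLeft (π ⟨τ, hτK⟩)) _ _ fun j => ?_
    rw [Equiv.coe_mulLeft]
    by_cases hj : j ∈ J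
    · rw [if_pos hj, if_pos (J.mul_mem hτJ hj)]
      exact hagree ⟨τ, hτK⟩ j ε hεH
    · rw [if_neg hj, if_neg (fun h' => hj ((J.mul_mem_cancel_left hτJ).1 h')), map_one]
  have hroot : ∀ σ τ : GQ, Fixes K σ → Fixes K τ → σ (τ κ) = τ (σ κ) := by
    intro σ τ hσ hτ
    rw [hκdef]
    simp only [map_prod]
    refine Finset.prod_congr rfl fun j _ => ?_
    split_ifs
    · have h1 : AbelianRoot K W ((rep j : GQ) ε) := abelianRoot_apply hW0 hr _ (hrepK j)
      exact h1 ((rep j : GQ) lam) (by rw [← map_pow, hlam]) σ τ hσ hτ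
    · simp
  obtain ⟨ξ, hξ, hξL⟩ := unit_down K L H hKL hLH hab hW hW₁ κ hκ0 hη hroot
  have hξ0 : ξ ≠ 0 := by
    rintro rfl
    rw [zero_pow hW0.ne'] at hξ
    exact zero_ne_one hξ
  -- integrality
  have hmapint : ∀ (g : GQ) {x : Qbar}, IsIntegral ℤ x → IsIntegral ℤ (g x) := fun g x hx =>
    hx.map (g.toAlgHom.restrictScalars ℤ)
  have hlami : IsIntegral ℤ lam := IsIntegral.of_pow hW0 (by rw [hlam]; exact hi)
  have hlami' : IsIntegral ℤ lam⁻¹ := IsIntegral.of_pow hW0 (by rw [inv_pow, hlam]; exact hi')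
  have hξi : IsIntegral ℤ ξ := IsIntegral.of_pow hW0 (by rw [hξ]; exact isIntegral_one)
  have hξi' : IsIntegral ℤ ξ⁻¹ :=
    IsIntegral.of_pow hW0 (by rw [inv_pow, hξ, inv_one]; exact isIntegral_one)
  have hκi : IsIntegral ℤ κ := by
    rw [hκdef]
    refine IsIntegral.prod _ fun j _ => ?_
    split_ifs
    · exact hmapint _ hlami
    · exact isIntegral_one
  have hκi' : IsIntegral ℤ κ⁻¹ := by
    rw [hκdef, ← Finset.prod_inv_distrib]
    refine IsIntegral.prod _ fun j _ => ?_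
    split_ifs
    · rw [← map_inv₀]
      exact hmapint _ hlami'
    · rw [inv_one]; exact isIntegral_one
  -- absolute values
  have habs : ∀ w : Qbar →+* ℂ, NotAbove ι K w → ‖w (ξ * κ ^ W₁)‖ = 1 := by
    intro w hw
    have h1 : ∀ x : Qbar, ∀ m : ℕ, 0 < m → ‖w (x ^ m)‖ = 1 → ‖w x‖ = 1 := by
      intro x m hm hx
      rw [map_pow, norm_pow] at hx
      exact (pow_eq_one_iff_of_nonneg (norm_nonneg _) hm.ne').1 hx
    have h2 : ‖w ξ‖ = 1 := h1 ξ W hW0 (by rw [hξ]; simp)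
    have h3 : ‖w κ‖ = 1 := by
      apply h1 κ W hW0
      rw [hκW, map_prod, norm_prod]
      refine Finset.prod_eq_one fun j _ => ?_
      split_ifs
      · exact ha (w.comp ((rep j : GQ) : Qbar →+* Qbar)) (hw.comp (hrepK j))
      · simp
    rw [map_mul, map_pow, norm_mul, norm_pow, h2, h3, one_pow, one_mul]
  -- the root
  have hAR : AbelianRoot K W₁ (ξ * κ ^ W₁) := by
    obtain ⟨ζ, hζ⟩ := exists_root hW10 ξ
    have hζ1 : ζ ^ (W₁ * W) = 1 := by rw [pow_mul, hζ, hξ]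
    refine abelianRoot_of (y := ζ * κ) hW10 (mul_ne_zero hξ0 (pow_ne_zero _ hκ0))
      (by rw [mul_pow, hζ]) fun σ τ hσ hτ => ?_
    rw [map_mul, map_mul, map_mul, map_mul, hroot σ τ hσ hτ,
      comm_root (Nat.mul_pos hW10 hW0) hζ1 σ τ]
  -- the zeta functions
  have hcZ : ∀ g, IsZeta (cG H art rep 𝔣 g) (Z (rep g)) := fun g => (hlim _ (hrepK g)).1
  have hc : ∀ g, ∃ Z, IsZeta (cG H art rep 𝔣 g) Z := fun g => ⟨_, hcZ g⟩
  have hd : ∀ g, dG H art rep 𝔣 g = deriv (Z (rep g)) 0 := fun g => dz_eq (hcZ g)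
  have hv : ∀ g, vG H art rep 𝔣 g = 0 := fun g => (vz_eq (hcZ g)).trans (hlim _ (hrepK g)).2.1
  have hfix : ∀ 𝔟, IsCoprime 𝔟 𝔣 → Fixes K (art 𝔟) := fun 𝔟 h𝔟 => hart.fix 𝔟 h𝔟
  have hcnt : ∀ (σ : K.fixingSubgroup), (∃ Z, IsZeta (cnt K L 𝔣 art σ) Z) ∧
      dz (cnt K L 𝔣 art σ) = nm J (dG H art rep 𝔣) (π σ) ∧
      vz (cnt K L 𝔣 art σ) = nm J (vG H art rep 𝔣) (π σ) := by
    intro σ
    obtain ⟨h0, h1, h2⟩ := comb Finset.univ (fun g : G => if (π σ)⁻¹ * g ∈ J then (1 : ℂ) else 0)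
      (cG H art rep 𝔣) (cnt K L 𝔣 art σ) (fun g _ => hc g) (by
        intro k _
        rw [cnt_sum K H L 𝔣 art hfix hLH G π hπ J hJ rep hrep σ k]
        push_cast
        refine Finset.sum_congr rfl fun g _ => ?_
        unfold cG
        split_ifs <;> simp)
    refine ⟨h0, ?_, ?_⟩
    · rw [h1]
      unfold nm dG
      refine Finset.sum_congr rfl fun g _ => ?_
      split_ifs <;> simp
    · rw [h2]
      unfold nm vG
      refine Finset.sum_congr rfl fun g _ => ?_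
      split_ifs <;> simp
  have hlog : ∀ g : G, ((localDegree ι K * Real.log ‖ι ((rep g : GQ) ε)‖ : ℝ) : ℂ) =
      -((n * W : ℕ) : ℂ) * dG H art rep 𝔣 g := fun g => by
    rw [hd g]; exact (hlim _ (hrepK g)).2.2
  have key : ∀ σ : GQ, ∃ Zσ : ℂ → ℂ, Fixes K σ → (IsZeta (cnt K L 𝔣 art σ) Zσ ∧ Zσ 0 = 0 ∧
      ((localDegree ι K * Real.log ‖ι (σ (ξ * κ ^ W₁))‖ : ℝ) : ℂ) =
        -((n * W₁ : ℕ) : ℂ) * deriv Zσ 0) := by
    intro σ
    by_cases hσ : Fixes K σ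
    · have hσK : σ ∈ K.fixingSubgroup := fixes_iff.1 hσ
      obtain ⟨⟨Z', hZ'⟩, h1, h2⟩ := hcnt ⟨σ, hσK⟩
      refine ⟨Z', fun _ => ⟨hZ', ?_, ?_⟩⟩
      · rw [← vz_eq hZ', h2]
        unfold nm
        refine Finset.sum_eq_zero fun g _ => ?_
        rw [hv g, ite_self]
      · rw [← dz_eq hZ', h1]
        have h3 : (e : ℝ) * Real.log ‖ι (σ (ξ * κ ^ W₁))‖ =
            ∑ j : G, if j ∈ J then Real.log ‖ι ((rep (π ⟨σ, hσK⟩ * j) : GQ) ε)‖ else 0 := by
          rw [← Real.log_pow, ← norm_pow, ← map_pow, ← map_pow, mul_pow, ← pow_mul, ← he, hκW]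
          have h4 : ‖ι (σ (ξ ^ e))‖ = 1 := by
            have h5 : (‖ι (σ (ξ ^ e))‖) ^ W = 1 := by
              rw [← norm_pow, ← map_pow, ← map_pow, ← pow_mul, mul_comm, pow_mul, hξ, one_pow]
              simp
            exact (pow_eq_one_iff_of_nonneg (norm_nonneg _) hW0.ne').1 h5
          rw [map_mul, map_mul, norm_mul, h4, one_mul, map_prod, map_prod, norm_prod,
            Real.log_prod]
          · refine Finset.sum_congr rfl fun j _ => ?_
            split_ifs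
            · rw [← hagree ⟨σ, hσK⟩ j ε hεH]
            · simp
          · intro j _
            rw [norm_ne_zero_iff]
            split_ifs
            · exact (map_ne_zero ι).2 ((map_ne_zero σ).2 ((map_ne_zero _).2 hε0))
            · simp
        have h6 : (e : ℂ) * ((localDegree ι K * Real.log ‖ι (σ (ξ * κ ^ W₁))‖ : ℝ) : ℂ) =
            -((n * W : ℕ) : ℂ) * nm J (dG H art rep 𝔣) (π ⟨σ, hσK⟩) := by
          have h7 : (e : ℂ) * ((localDegree ι K * Real.log ‖ι (σ (ξ * κ ^ W₁))‖ : ℝ) : ℂ) =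
              ((localDegree ι K * ((e : ℝ) * Real.log ‖ι (σ (ξ * κ ^ W₁))‖) : ℝ) : ℂ) := by
            push_cast; ring
          rw [h7, h3, Finset.mul_sum, Complex.ofReal_sum]
          unfold nm
          rw [Finset.mul_sum]
          refine Fintype.sum_equiv (Equiv.mulLeft (π ⟨σ, hσK⟩)) _ _ fun j => ?_
          rw [Equiv.coe_mulLeft, inv_mul_cancel_left]
          by_cases hj : j ∈ J
          · rw [if_pos hj, if_pos hj]
            exact hlog _
          · rw [if_neg hj, if_neg hj]; simp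
        have he' : (e : ℂ) ≠ 0 := by exact_mod_cast he0.ne'
        apply mul_left_cancel₀ he'
        rw [h6, he]
        push_cast
        ring
    · exact ⟨0, fun h' => absurd h' hσ⟩
  choose Z' hZ' using key
  exact ⟨Z', ξ * κ ^ W₁, hξL, mul_ne_zero hξ0 (pow_ne_zero _ hκ0), fun σ hσ => hZ' σ hσ,
    hξi.mul (hκi.pow _), by rw [mul_inv, ← inv_pow]; exact hξi'.mul (hκi'.pow _), habs, hAR⟩

end Pool.Agent.J4.H17.SR
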