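import Pool.Agent.J4.H17.SR.Core
import Pool.Agent.J4.H17.SR.DOWNU
import Pool.Agent.J4.H17.SR.TOR2

/-! Piece DOWN (second copy): the conjecture passes to intermediate fields. -/

set_option autoImplicit false

namespace Pool.Agent.J4.H17.SR.Two
open NumberField
open Pool.Agent.K4H33.SK (Qbar GQ Fixes IsZeta AbelianRoot IsTorsionOrder fixes_iff
  mem_of_fixed agree_iff)
open Pool.Agent.K4H33.SK.Stmt (Ideals Cop prd cnt IsArtin)
open Pool.Agent.J4.H99.SRins (exists_quotient)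

/-- The number of roots of unity of a subfield divides the number of roots of unity. -/
lemma torsion_dvd {L H : Sub} (hLH : L ≤ H) {W W₁ : ℕ} (hW : IsTorsionOrder H W)
    (hW₁ : IsTorsionOrder L W₁) : W₁ ∣ W := by
  obtain ⟨ζ, hζ⟩ := DOWNU.exists_prim W₁ hW₁.1
  have h1 := (hW₁.2 ζ).2 hζ.pow_eq_one
  have h2 : ζ ^ W = 1 := (hW.2 ζ).1 ⟨hLH h1.1, h1.2⟩
  exact (hζ.pow_eq_one_iff_dvd W).1 h2

lemma norm_of_root {w : Qbar →+* ℂ} {ξ : Qbar} {W : ℕ} (hW : 0 < W) (h : ξ ^ W = 1) :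
    ‖w ξ‖ = 1 := by
  have h1 : ‖w ξ‖ ^ W = 1 := by rw [← norm_pow, ← map_pow, h, map_one, norm_one]
  exact (pow_eq_one_iff_of_nonneg (norm_nonneg _) hW.ne').1 h1

/-- The group of the subfield. -/
lemma exists_sub {K L H : Sub} (hLH : L ≤ H) {G : Type} [CommGroup G]
    (π : K.fixingSubgroup →* G) (hπ : ∀ σ : K.fixingSubgroup, π σ = 1 ↔ Fixes H σ) :
    ∃ J : Subgroup G, ∀ σ : K.fixingSubgroup, Fixes L σ ↔ π σ ∈ J := by
  refine ⟨(L.fixingSubgroup.subgroupOf K.fixingSubgroup).map π, fun σ => ?_⟩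
  rw [Subgroup.mem_map]
  constructor
  · intro h
    exact ⟨σ, Subgroup.mem_subgroupOf.2 (fixes_iff.1 h), rfl⟩
  · rintro ⟨τ, hτ, h⟩
    have h1 : Fixes L (τ : GQ) := fixes_iff.2 (Subgroup.mem_subgroupOf.1 hτ)
    have h2 : Fixes H ((τ⁻¹ * σ : K.fixingSubgroup) : GQ) :=
      (hπ (τ⁻¹ * σ)).1 (by rw [map_mul, map_inv, h, inv_mul_cancel])
    have h3 : (σ : GQ) = (τ : GQ) * ((τ⁻¹ * σ : K.fixingSubgroup) : GQ) := by
      change (σ : GQ) = (τ : GQ) * ((τ : GQ)⁻¹ * (σ : GQ))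
      rw [mul_inv_cancel_left]
    intro x hx
    rw [h3]
    change (τ : GQ) (((τ⁻¹ * σ : K.fixingSubgroup) : GQ) x) = x
    rw [h2 x (hLH hx), h1 x hx]

open Classical in
theorem stark_down (ι : Qbar →+* ℂ) (K L H : Sub) [NumberField K] [FiniteDimensional ℚ H]
    (hKL : K ≤ L) (hLH : L ≤ H) (hab : AbelianOver K H) (𝔣 : Ideals K) (art : Ideals K → GQ)
    (hart : IsArtin K H 𝔣 art) (n : ℕ) (h : StarkUpTo n ι K H 𝔣 art) :
    StarkUpTo n ι K L 𝔣 art := by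
  intro W₁ hW₁
  obtain ⟨W, hW⟩ := exists_torsionOrder H
  obtain ⟨Z, ε, hεH, hε0, hlim, hi, hi', ha, hr⟩ := h W hW
  have hKH : K ≤ H := hKL.trans hLH
  have hW0 : 0 < W := hW.1
  obtain ⟨d, hd⟩ := torsion_dvd hLH hW hW₁
  have hW₁0 : 0 < W₁ := hW₁.1
  have hd0 : 0 < d := Nat.pos_of_ne_zero fun h0 => by rw [h0, mul_zero] at hd; omega
  obtain ⟨G, _, _, π, hπs, hπ, -⟩ := exists_quotient K H hKH hab
  obtain ⟨J, hJ⟩ := exists_sub hLH π hπ
  choose rep hrep using hπs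
  have hU : IsUnitFor ι K H W ε := ⟨hεH, hε0, hi, hi', ha, hr⟩
  have hrf : ∀ g, Fixes K (rep g : GQ) := fun g => fixes_iff.2 (rep g).2
  -- the action on the conjugates of `ε`
  have hact : ∀ (σ : K.fixingSubgroup) (g : G),
      (σ : GQ) ((rep g : GQ) ε) = (rep (π σ * g) : GQ) ε := by
    intro σ g
    have h1 : Fixes H (((rep (π σ * g))⁻¹ * (σ * rep g) : K.fixingSubgroup) : GQ) :=
      (hπ _).1 (by rw [map_mul, map_inv, map_mul, hrep, hrep, inv_mul_cancel])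
    have h2 := agree_iff (F := H) (σ := (σ : GQ) * (rep g : GQ)) (τ := (rep (π σ * g) : GQ))
    exact h2.2 h1 ε hεH
  obtain ⟨lam, hlam⟩ := exists_root hW0 ε
  have hlam0 : lam ≠ 0 := by
    rintro rfl
    exact hε0 (by rw [← hlam, zero_pow hW0.ne'])
  obtain ⟨κ, hκ⟩ : ∃ κ : Qbar, κ = ∏ g : G, if g ∈ J then (rep g : GQ) lam else 1 := ⟨_, rfl⟩
  obtain ⟨η, hη⟩ : ∃ η : Qbar, η = ∏ g : G, if g ∈ J then (rep g : GQ) ε else 1 := ⟨_, rfl⟩
  have hκ0 : κ ≠ 0 := by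
    rw [hκ, Finset.prod_ne_zero_iff]
    intro g _
    split_ifs
    · exact (map_ne_zero _).2 hlam0
    · exact one_ne_zero
  have hκW : κ ^ W = η := by
    rw [hκ, hη, ← Finset.prod_pow]
    refine Finset.prod_congr rfl fun g _ => ?_
    split_ifs
    · rw [← map_pow, hlam]
    · exact one_pow W
  have hηU : IsUnitFor ι K H W η := by
    rw [hη]
    refine Finset.prod_induction _ (IsUnitFor ι K H W) (fun _ _ => IsUnitFor.mul hW0)
      (IsUnitFor.one hW0) fun g _ => ?_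
    split_ifs
    · exact hU.apply hW0 hKH hab (hrf g)
    · exact IsUnitFor.one hW0
  -- the action on `η`
  have hση : ∀ σ : K.fixingSubgroup, (σ : GQ) η =
      ∏ g : G, if (π σ)⁻¹ * g ∈ J then (rep g : GQ) ε else 1 := by
    intro σ
    rw [hη, map_prod]
    refine Fintype.prod_equiv (Equiv.mulLeft (π σ)) _ _ fun g => ?_
    have h1 : (π σ)⁻¹ * (Equiv.mulLeft (π σ)) g = g := by
      change (π σ)⁻¹ * (π σ * g) = g
      rw [inv_mul_cancel_left]
    rw [h1]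
    split_ifs
    · exact hact σ g
    · exact map_one _
  have hηL : κ ^ W ∈ L := by
    rw [hκW]
    refine mem_of_fixed L fun τ hτ => ?_
    have h1 := hση ⟨τ, fixes_iff.1 (hτ.mono hKL)⟩
    have h2 : π ⟨τ, fixes_iff.1 (hτ.mono hKL)⟩ ∈ J := (hJ ⟨τ, _⟩).1 hτ
    change τ η = _ at h1
    rw [h1, hη]
    refine Finset.prod_congr rfl fun g _ => ?_
    simp only [Subgroup.mul_mem_cancel_left J (J.inv_mem h2)]
  have hroot : ∀ σ τ : GQ, Fixes K σ → Fixes K τ → σ (τ κ) = τ (σ κ) := by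
    intro σ τ hσ hτ
    rw [hκ]
    simp only [map_prod]
    refine Finset.prod_congr rfl fun g _ => ?_
    split_ifs
    · exact abelianRoot_apply hW0 hr (rep g : GQ) (hrf g) ((rep g : GQ) lam)
        (by rw [← map_pow, hlam]) σ τ hσ hτ
    · simp
  obtain ⟨ξ, hξ, hmem⟩ := unit_down K L H hKL hLH hab hW hW₁ κ hκ0 hηL hroot
  have hξ0 : ξ ≠ 0 := by
    rintro rfl
    rw [zero_pow hW0.ne'] at hξ
    exact zero_ne_one hξ
  have hξi : IsIntegral ℤ ξ := IsIntegral.of_pow hW0 (by rw [hξ]; exact isIntegral_one)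
  have hξi' : IsIntegral ℤ ξ⁻¹ :=
    IsIntegral.of_pow hW0 (by rw [inv_pow, hξ, inv_one]; exact isIntegral_one)
  obtain ⟨θ, hθ⟩ : ∃ θ : Qbar, θ = ξ * κ ^ W₁ := ⟨_, rfl⟩
  rw [← hθ] at hmem
  have hθ0 : θ ≠ 0 := by rw [hθ]; exact mul_ne_zero hξ0 (pow_ne_zero _ hκ0)
  have hθd : θ ^ d = ξ ^ d * η := by
    rw [hθ, mul_pow, ← pow_mul, ← hd, hκW]
  -- the logarithms
  have hlog : ∀ σ : K.fixingSubgroup,
      ((localDegree ι K * Real.log ‖ι ((σ : GQ) θ)‖ : ℝ) : ℂ) = -((n * W₁ : ℕ) : ℂ) *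
        ∑ g : G, (if (π σ)⁻¹ * g ∈ J then (1 : ℂ) else 0) * deriv (Z (rep g)) 0 := by
    intro σ
    have h1 : (d : ℝ) * Real.log ‖ι ((σ : GQ) θ)‖ =
        ∑ g : G, (if (π σ)⁻¹ * g ∈ J then (1 : ℝ) else 0) * Real.log ‖ι ((rep g : GQ) ε)‖ := by
      have h2 : ‖ι ((σ : GQ) ξ)‖ = 1 :=
        norm_of_root hW0 (by rw [← map_pow, hξ, map_one])
      rw [← Real.log_pow, ← norm_pow, ← map_pow, ← map_pow, hθd, map_mul, map_mul, norm_mul,
        map_pow, map_pow, norm_pow, h2, one_pow, one_mul, hση σ, map_prod, norm_prod,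
        Real.log_prod]
      · refine Finset.sum_congr rfl fun g _ => ?_
        split_ifs
        · rw [one_mul]
        · simp
      · intro g _
        rw [norm_ne_zero_iff]
        split_ifs
        · exact (map_ne_zero _).2 ((map_ne_zero _).2 hε0)
        · simp
    have h3 : ∀ g : G, ((localDegree ι K * Real.log ‖ι ((rep g : GQ) ε)‖ : ℝ) : ℂ) =
        -((n * W : ℕ) : ℂ) * deriv (Z (rep g)) 0 := fun g => (hlim (rep g) (hrf g)).2.2
    have hd' : (d : ℂ) ≠ 0 := by exact_mod_cast hd0.ne'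
    apply mul_left_cancel₀ hd'
    have h4 : (d : ℂ) * ((localDegree ι K * Real.log ‖ι ((σ : GQ) θ)‖ : ℝ) : ℂ) =
        ((localDegree ι K * ((d : ℝ) * Real.log ‖ι ((σ : GQ) θ)‖) : ℝ) : ℂ) := by
      push_cast
      ring
    rw [h4, h1, Finset.mul_sum, Finset.mul_sum, Finset.mul_sum, Complex.ofReal_sum]
    refine Finset.sum_congr rfl fun g _ => ?_
    have h5 := h3 g
    have h6 : (W : ℂ) = W₁ * d := by exact_mod_cast hd
    push_cast at h5 ⊢
    rw [h6] at h5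
    split_ifs
    · rw [Complex.ofReal_one]
      linear_combination h5
    · simp
  refine ⟨fun σ t => if hσ : Fixes K σ then
      ∑ g : G, (if (π ⟨σ, fixes_iff.1 hσ⟩)⁻¹ * g ∈ J then (1 : ℂ) else 0) * Z (rep g) t else 0,
    θ, hmem, hθ0, ?_, ?_, ?_, ?_, ?_⟩
  · intro σ hσ
    simp only [dif_pos hσ]
    have hc : IsZeta (cnt K L 𝔣 art σ) (fun t => ∑ g : G,
        (if (π ⟨σ, fixes_iff.1 hσ⟩)⁻¹ * g ∈ J then (1 : ℂ) else 0) * Z (rep g) t) := by
      refine isZeta_comb' Finset.univ _ (fun g : G => cnt K H 𝔣 art (rep g)) (fun g => Z (rep g)) _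
        (fun g _ => (hlim (rep g) (hrf g)).1) fun k _ => ?_
      have h1 := cnt_sum K H L 𝔣 art hart.fix hLH G π hπ J hJ rep hrep ⟨σ, fixes_iff.1 hσ⟩ k
      change cnt K L 𝔣 art σ k = ∑ g : G, if (π ⟨σ, fixes_iff.1 hσ⟩)⁻¹ * g ∈ J then
        cnt K H 𝔣 art (rep g) k else 0 at h1
      rw [h1]
      push_cast
      refine Finset.sum_congr rfl fun g _ => ?_
      split_ifs <;> simp
    refine ⟨hc, ?_, ?_⟩
    · refine Finset.sum_eq_zero fun g _ => ?_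
      rw [(hlim (rep g) (hrf g)).2.1, mul_zero]
    · have h2 : ∀ g ∈ (Finset.univ : Finset G), DifferentiableAt ℂ (Z (rep g)) 0 := fun g _ =>
        (hlim (rep g) (hrf g)).1.1.differentiableAt (isOpen_compl_singleton.mem_nhds (by simp))
      rw [deriv_fun_sum fun g hg => (h2 g hg).const_mul _]
      have h3 := hlog ⟨σ, fixes_iff.1 hσ⟩
      rw [Finset.sum_congr rfl fun g hg => deriv_const_mul _ (h2 g hg)]
      exact h3
  · exact IsIntegral.of_pow hd0 (by rw [hθd]; exact (hξi.pow d).mul hηU.int)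
  · exact IsIntegral.of_pow hd0 (by
      rw [inv_pow, hθd, mul_inv, ← inv_pow]
      exact (hξi'.pow d).mul hηU.int_inv)
  · intro w hw
    have h1 : ‖w θ‖ ^ d = 1 := by
      rw [← norm_pow, ← map_pow, hθd, map_mul, norm_mul, hηU.abs w hw, map_pow, norm_pow,
        norm_of_root hW0 hξ, one_pow, mul_one]
    exact (pow_eq_one_iff_of_nonneg (norm_nonneg _) hd0.ne').1 h1
  · obtain ⟨ρ, hρ⟩ := exists_root hW₁0 ξ
    refine abelianRoot_of hW₁0 (y := ρ * κ) hθ0 (by rw [mul_pow, hρ, hθ]) fun σ τ hσ hτ => ?_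
    have h1 : ρ ^ (W₁ * W) = 1 := by rw [pow_mul, hρ, hξ]
    rw [map_mul, map_mul, map_mul, map_mul, comm_root (Nat.mul_pos hW₁0 hW0) h1 σ τ,
      hroot σ τ hσ hτ]

end Pool.Agent.J4.H17.SR.Two
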