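import Pool.Agent.K4H33.SK.Stmt

/-! Definitions: the rank one abelian Stark conjecture in Tate's form for an archimedean place. -/

set_option autoImplicit false

namespace Pool.Agent.J4.H17.SR
open NumberField
open Pool.Agent.K4H33.SK (Qbar GQ Fixes IsZeta AbelianRoot IsTorsionOrder)
open Pool.Agent.K4H33.SK.Stmt (Ideals Cop prd cnt)

/-- Subfields of the fixed algebraic closure `Qbar` of `ℚ`. -/
abbrev Sub := IntermediateField ℚ Qbar

/-- The automorphisms of `Qbar` fixing `K` commute on `H`; for number fields `K ≤ H` this means that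
`H/K` is an abelian extension. -/
def AbelianOver (K H : Sub) : Prop :=
  ∀ σ τ : GQ, Fixes K σ → Fixes K τ → ∀ x ∈ H, σ (τ x) = τ (σ x)

/-- The archimedean place `v` of `K` given by the embedding `ι` splits completely in the abelian
extension `H`: if it is real, so are the places above it. -/
def Splits (ι : Qbar →+* ℂ) (K H : Sub) : Prop :=
  (∀ x ∈ K, (ι x).im = 0) → ∀ x ∈ H, (ι x).im = 0

open Classical in
/-- The local degree of the place `v` of `K` given by `ι`: `1` if it is real, `2` if it is complex. -/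
noncomputable def localDegree (ι : Qbar →+* ℂ) (K : Sub) : ℕ :=
  if ∀ x ∈ K, (ι x).im = 0 then 1 else 2

/-- The archimedean place given by `w` does not lie above the place of `K` given by `ι`. -/
def NotAbove (ι : Qbar →+* ℂ) (K : Sub) (w : Qbar →+* ℂ) : Prop :=
  (∃ x ∈ K, w x ≠ ι x) ∧ ∃ x ∈ K, w x ≠ (starRingEnd ℂ) (ι x)

/-- The `n`-th power of the rank one abelian Stark conjecture in Tate's form, for the abelian extension
`L` of the number field `K`, the archimedean place `v` of `K` given by `ι`, and the set `S` of the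
archimedean places and of the primes dividing `𝔣`: if `W` is the number of roots of unity of `L`, there
is a unit `ε` of `L` of absolute value one at all archimedean places not above `v` with
`log |σ ε|_v = - n W ζ_S'(σ, 0)` (and `ζ_S(σ, 0) = 0`) for all automorphisms `σ` over `K`, whose
`W`-th roots generate an abelian extension of `K`. For `n = 1` this is the conjecture. -/
def StarkUpTo (n : ℕ) (ι : Qbar →+* ℂ) (K L : Sub) [NumberField K] (𝔣 : Ideals K)
    (art : Ideals K → GQ) : Prop :=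
  ∀ W : ℕ, IsTorsionOrder L W → ∃ (Z : GQ → ℂ → ℂ) (ε : Qbar), ε ∈ L ∧ ε ≠ 0 ∧
    (∀ σ : GQ, Fixes K σ → IsZeta (cnt K L 𝔣 art σ) (Z σ) ∧ Z σ 0 = 0 ∧
      ((localDegree ι K * Real.log ‖ι (σ ε)‖ : ℝ) : ℂ) = -((n * W : ℕ) : ℂ) * deriv (Z σ) 0) ∧
    IsIntegral ℤ ε ∧ IsIntegral ℤ ε⁻¹ ∧ (∀ w : Qbar →+* ℂ, NotAbove ι K w → ‖w ε‖ = 1) ∧
    AbelianRoot K W ε

/-- The Sylow `q`-subgroup of the Galois group of the finite abelian extension `L/K` is cyclic: if
`σ` and `τ` have order dividing `q`, then `σ = 1` or `τ` is a power of `σ`. -/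
def CyclicSylow (q : ℕ) (K L : Sub) : Prop :=
  ∀ σ τ : GQ, Fixes K σ → Fixes K τ → Fixes L (σ ^ q) → Fixes L (τ ^ q) →
    Fixes L σ ∨ ∃ k : ℕ, ∀ x ∈ L, τ x = (σ ^ k) x

/-- The degree of the finite abelian extension `H/L` is not divisible by the prime `ℓ`: its Galois group
has no elements of order `ℓ`. -/
def DegreePrimeTo (ℓ : ℕ) (L H : Sub) : Prop :=
  ∀ σ : GQ, Fixes L σ → Fixes H (σ ^ ℓ) → Fixes H σ

/-- A nonzero prime ideal. -/
def IsPrimeIdeal (K : Sub) (𝔮 : Ideals K) : Prop := 𝔮.IsPrime ∧ 𝔮 ≠ ⊥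

/-- The abelian extension `L/K` is a `2`-extension. -/
def TwoExtension (K L : Sub) : Prop := ∀ σ : GQ, Fixes K σ → ∃ k : ℕ, Fixes L (σ ^ 2 ^ k)

/-- The `n`-th power of the conjecture for `L/K` and larger sets of places. For `N = 1`: the
Frobenius automorphisms of the primes `𝔮` not in `S` such that the statement holds for `S ∪ {𝔮}`
generate the Galois group of `L/K`, that is, for every proper subgroup `U` there is such a prime with
Frobenius automorphism not in `U`. For `N > 1`: the same with primes `𝔮` such that the statement for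
`N - 1` holds for `S ∪ {𝔮}`. -/
def LargeSets : ℕ → ℕ → (Qbar →+* ℂ) → (K : Sub) → Sub → [NumberField K] → Ideals K →
    (Ideals K → GQ) → Prop
  | 0, n, ι, K, L, _, 𝔣, art => StarkUpTo n ι K L 𝔣 art
  | N + 1, n, ι, K, L, _, 𝔣, art => ∀ U : Subgroup GQ, (∀ σ : GQ, Fixes L σ → σ ∈ U) →
      (∃ σ : GQ, Fixes K σ ∧ σ ∉ U) → ∃ 𝔮 : Ideals K, IsPrimeIdeal K 𝔮 ∧
      Cop K 𝔮 𝔣 ∧ art 𝔮 ∉ U ∧ LargeSets N n ι K L (prd K 𝔣 𝔮) art

end Pool.Agent.J4.H17.SR
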