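import Pool.Agent.J4.H17.SR.Defs

set_option autoImplicit false

namespace Pool.Agent.J4.H17.SR
open NumberField
open Pool.Agent.K4H33.SK (Qbar GQ Fixes IsZeta AbelianRoot IsTorsionOrder IsArtin cnt)

theorem cnt_euler (K H : Sub) [NumberField K] (𝔤 𝔮 : Ideal (𝓞 K)) (hq : 𝔮.IsPrime)
    (hq0 : 𝔮 ≠ ⊥) (hqg : IsCoprime 𝔮 𝔤) (art : Ideal (𝓞 K) → GQ)
    (hmul : ∀ 𝔟 𝔠 : Ideal (𝓞 K), IsCoprime 𝔟 𝔤 → IsCoprime 𝔠 𝔤 →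
      ∀ x ∈ H, art (𝔟 * 𝔠) x = art 𝔟 (art 𝔠 x)) (σ : GQ) (n : ℕ) (hn : n ≠ 0) :
    cnt K H 𝔤 art σ n = cnt K H (𝔤 * 𝔮) art σ n +
      if Ideal.absNorm 𝔮 ∣ n then cnt K H 𝔤 art ((art 𝔮)⁻¹ * σ) (n / Ideal.absNorm 𝔮) else 0 := by
  classical
  have hmax : 𝔮.IsMaximal := hq.isMaximal hq0
  have hcop : ∀ 𝔟 : Ideal (𝓞 K), ¬ 𝔮 ∣ 𝔟 ↔ IsCoprime 𝔟 𝔮 := by
    intro 𝔟
    rw [isCoprime_comm, Ideal.isCoprime_iff_sup_eq]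
    constructor
    · intro h
      by_contra hne
      have h1 := hmax.eq_of_le hne le_sup_left
      exact h (Ideal.dvd_iff_le.2 (le_sup_right.trans h1.symm.le))
    · intro h hd
      rw [sup_eq_left.2 (Ideal.dvd_iff_le.1 hd)] at h
      exact hmax.ne_top h
  have hfs : ∀ (m : ℕ) (P : Ideal (𝓞 K) → Prop), ∃ A : Finset (Ideal (𝓞 K)),
      (∀ 𝔟, 𝔟 ∈ A ↔ (Ideal.absNorm 𝔟 = m ∧ P 𝔟)) ∧
      Nat.card {𝔟 : Ideal (𝓞 K) // Ideal.absNorm 𝔟 = m ∧ P 𝔟} = A.card := by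
    intro m P
    have h1 : ∀ 𝔟, 𝔟 ∈ (Ideal.finite_setOfPred_absNorm_eq (S := 𝓞 K) m).toFinset.filter P ↔
        (Ideal.absNorm 𝔟 = m ∧ P 𝔟) := fun 𝔟 => by
      rw [Finset.mem_filter, Set.Finite.mem_toFinset]
      rfl
    exact ⟨_, h1, Nat.subtype_card _ h1⟩
  have hN0 : Ideal.absNorm 𝔮 ≠ 0 := fun h => hq0 (Ideal.absNorm_eq_zero_iff.1 h)
  unfold cnt
  obtain ⟨A, hA, hAc⟩ := hfs n (fun 𝔟 => IsCoprime 𝔟 𝔤 ∧ ∀ x ∈ H, art 𝔟 x = σ x)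
  obtain ⟨B, hB, hBc⟩ := hfs n (fun 𝔟 => IsCoprime 𝔟 (𝔤 * 𝔮) ∧ ∀ x ∈ H, art 𝔟 x = σ x)
  rw [hAc, hBc]
  by_cases hd : Ideal.absNorm 𝔮 ∣ n
  · obtain ⟨C, hC, hCc⟩ := hfs (n / Ideal.absNorm 𝔮)
      (fun 𝔟 => IsCoprime 𝔟 𝔤 ∧ ∀ x ∈ H, art 𝔟 x = ((art 𝔮)⁻¹ * σ : GQ) x)
    rw [if_pos hd, hCc]
    have hAB : A = B ∪ C.image (fun 𝔠 => 𝔮 * 𝔠) := by
      ext 𝔟
      rw [Finset.mem_union, Finset.mem_image, hA, hB]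
      constructor
      · rintro ⟨h1, h2, h3⟩
        by_cases h4 : 𝔮 ∣ 𝔟
        · right
          obtain ⟨𝔠, rfl⟩ := h4
          have h5 : IsCoprime 𝔠 𝔤 := h2.of_mul_left_right
          refine ⟨𝔠, (hC 𝔠).2 ⟨?_, h5, fun x hx => ?_⟩, rfl⟩
          · rw [← h1, map_mul, Nat.mul_div_cancel_left _ (Nat.pos_of_ne_zero hN0)]
          · change art 𝔠 x = (art 𝔮).symm (σ x)
            rw [AlgEquiv.eq_symm_apply, ← hmul 𝔮 𝔠 hqg h5 x hx, h3 x hx]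
        · left
          exact ⟨h1, h2.mul_right ((hcop 𝔟).1 h4), h3⟩
      · rintro (⟨h1, h2, h3⟩ | ⟨𝔠, h𝔠, rfl⟩)
        · exact ⟨h1, h2.of_mul_right_left, h3⟩
        · obtain ⟨h1, h2, h3⟩ := (hC 𝔠).1 h𝔠
          refine ⟨?_, hqg.mul_left h2, fun x hx => ?_⟩
          · rw [map_mul, h1, Nat.mul_div_cancel' hd]
          · rw [hmul 𝔮 𝔠 hqg h2 x hx, h3 x hx]
            change art 𝔮 ((art 𝔮).symm (σ x)) = σ x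
            rw [AlgEquiv.apply_symm_apply]
    rw [hAB, Finset.card_union_of_disjoint, Finset.card_image_of_injective _
      (mul_right_injective₀ hq0)]
    rw [Finset.disjoint_left]
    intro 𝔟 h1 h2
    obtain ⟨𝔠, _, rfl⟩ := Finset.mem_image.1 h2
    exact (hcop _).2 ((hB _).1 h1).2.1.of_mul_right_right (dvd_mul_right _ _)
  · rw [if_neg hd, add_zero]
    congr 1
    ext 𝔟
    rw [hA, hB]
    constructor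
    · rintro ⟨h1, h2, h3⟩
      refine ⟨h1, h2.mul_right ((hcop 𝔟).1 fun h4 => ?_), h3⟩
      obtain ⟨𝔠, rfl⟩ := h4
      exact hd ⟨Ideal.absNorm 𝔠, by rw [← h1, map_mul]⟩
    · rintro ⟨h1, h2, h3⟩
      exact ⟨h1, h2.of_mul_right_left, h3⟩

end Pool.Agent.J4.H17.SR
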