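import Pool.Agent.J4.H17.SR.Large

/-! The final theorem, one direction. -/

set_option autoImplicit false

namespace Pool.Agent.J4.H17.SR
open NumberField
open Pool.Agent.K4H33.SK (Qbar GQ Fixes IsZeta AbelianRoot IsTorsionOrder fixes_iff
  mem_of_fixed agree_iff exists_conj)
open Pool.Agent.K4H33.SK.Stmt (Ideals Cop prd cnt IsArtin)
open Pool.Agent.J4.H99.SRins (exists_quotient exists_torsion)

/-- An additive subgroup of `ℤ` which, for every prime `ℓ`, contains an integer not divisible by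
`ℓ`, contains `1`. -/
lemma one_mem_of_prime (S : AddSubgroup ℤ) (h : ∀ ℓ : ℕ, ℓ.Prime → ∃ m ∈ S, ¬ (ℓ : ℤ) ∣ m) :
    (1 : ℤ) ∈ S := by
  obtain ⟨a, ha⟩ := Int.subgroup_cyclic S
  have hmem : ∀ m, m ∈ S ↔ a ∣ m := by
    intro m
    rw [ha, ← AddSubgroup.zmultiples_eq_closure]
    exact Int.mem_zmultiples_iff
  rw [hmem]
  by_cases h1 : a.natAbs = 1
  · exact Int.natAbs_dvd.1 (by rw [h1]; simp)
  · obtain ⟨p, hp, hpa⟩ := Nat.exists_prime_and_dvd h1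
    obtain ⟨m, hm, hpm⟩ := h p hp
    exact absurd ((Int.natCast_dvd.2 hpa).trans ((hmem m).1 hm)) hpm

/-- The elements of odd order. -/
lemma exists_odd_part (G : Type) [CommGroup G] [Fintype G] : ∃ B : Subgroup G,
    ¬ 2 ∣ crd B ∧ GoodSub 2 B ∧ (∀ σ : G, ∃ k : ℕ, σ ^ 2 ^ k ∈ B) ∧
    ∀ J : Subgroup G, GoodSub 2 J → J ≤ B := by
  obtain ⟨k, M, hM, hkM⟩ := Nat.exists_eq_two_pow_mul_odd (n := Fintype.card G) Fintype.card_ne_zero
  have hcard : ∀ σ : G, σ ^ (2 ^ k * M) = 1 := fun σ => by rw [← hkM]; exact pow_card_eq_one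
  have hodd : ∀ σ : G, ¬ 2 ∣ orderOf σ → σ ^ M = 1 := by
    intro σ hσ
    apply orderOf_dvd_iff_pow_eq_one.1
    have h1 : orderOf σ ∣ 2 ^ k * M := orderOf_dvd_of_pow_eq_one (hcard σ)
    have h2 : (orderOf σ).Coprime (2 ^ k) :=
      Nat.Coprime.pow_right k ((Nat.Prime.coprime_iff_not_dvd Nat.prime_two).2 hσ).symm
    exact h2.dvd_of_dvd_mul_left h1
  have hM2 : ¬ 2 ∣ M := fun h => (Nat.not_even_iff_odd.2 hM) (even_iff_two_dvd.2 h)
  have hodd2 : ∀ σ : G, (∃ q : ℕ, ¬ 2 ∣ q ∧ (σ ^ q) ^ M = 1) → σ ^ M = 1 := by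
    rintro σ ⟨q, hq, hσ⟩
    apply hodd
    intro h2
    have h3 : orderOf σ ∣ q * M := orderOf_dvd_of_pow_eq_one (by rw [pow_mul]; exact hσ)
    rcases (Nat.prime_two.dvd_mul).1 (h2.trans h3) with h4 | h4
    · exact hq h4
    · exact hM2 h4
  let B : Subgroup G :=
    { carrier := {g | g ^ M = 1}
      mul_mem' := by
        intro a b ha hb
        change (a * b) ^ M = 1
        rw [mul_pow, show a ^ M = 1 from ha, show b ^ M = 1 from hb, one_mul]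
      one_mem' := one_pow M
      inv_mem' := by
        intro a ha
        change (a⁻¹) ^ M = 1
        rw [inv_pow, show a ^ M = 1 from ha, inv_one] }
  have hB : ∀ g, g ∈ B ↔ g ^ M = 1 := fun g => Iff.rfl
  have hB2 : ∀ σ ∈ B, σ ^ 2 = 1 → σ = 1 := by
    intro σ hσ hσ2
    have h1 : orderOf σ ∣ M := orderOf_dvd_of_pow_eq_one ((hB σ).1 hσ)
    have h2 : orderOf σ ∣ 2 := orderOf_dvd_of_pow_eq_one hσ2
    have h3 : Nat.Coprime 2 M := (Nat.Prime.coprime_iff_not_dvd Nat.prime_two).2 hM2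
    have h4 : orderOf σ ∣ 1 := by
      have := Nat.dvd_gcd h2 h1
      rwa [h3] at this
    exact orderOf_eq_one_iff.1 (Nat.dvd_one.1 h4)
  refine ⟨B, ?_, ⟨hB2, ?_⟩, ?_, ?_⟩
  · rw [crd_eq]
    intro h2
    obtain ⟨x, hx⟩ := exists_prime_orderOf_dvd_card' (G := B) 2 h2
    have h3 : x ^ 2 = 1 := by rw [← hx]; exact pow_orderOf_eq_one x
    have h4 : (x : G) = 1 := hB2 x x.2 (by
      have := congrArg (fun y : B => (y : G)) h3
      simpa using this)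
    have h5 : x = 1 := Subtype.ext h4
    rw [h5, orderOf_one] at hx
    exact absurd hx (by norm_num)
  · intro q hq hq2 σ τ hσ _
    left
    have hq2' : ¬ 2 ∣ q := fun h => hq2 ((Nat.prime_dvd_prime_iff_eq Nat.prime_two hq).1 h).symm
    exact hodd2 σ ⟨q, hq2', (hB _).1 hσ⟩
  · intro σ
    refine ⟨k, (hB _).2 ?_⟩
    rw [← pow_mul]
    exact hcard σ
  · intro J hJ g hg
    refine (hB g).2 (hodd g ?_)
    intro h2
    obtain ⟨r, hr⟩ := h2
    have hpos : 0 < orderOf g := orderOf_pos g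
    have h3 : (g ^ r) ^ 2 = 1 := by
      rw [← pow_mul, mul_comm, ← hr]
      exact pow_orderOf_eq_one g
    have h4 := hJ.1 _ (J.pow_mem hg r) h3
    have h5 := Nat.le_of_dvd (by omega) (orderOf_dvd_of_pow_eq_one h4)
    omega

open Classical in
theorem main (ι : Qbar →+* ℂ) (K H : Sub) [NumberField K] [FiniteDimensional ℚ H] (hKH : K ≤ H)
    (hab : AbelianOver K H) (hw : ∃ w : Qbar →+* ℂ, NotAbove ι K w ∧ ∀ x ∈ K, (w x).im = 0)
    (𝔣 : Ideals K) (art : Ideals K → GQ) (hart : IsArtin K H 𝔣 art)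
    (hcont : ∀ σ : GQ, Fixes K σ → ∃ Z, IsZeta (cnt K H 𝔣 art σ) Z)
    (h : ∀ ℓ : ℕ, ℓ.Prime → ∀ L : Sub, K ≤ L → L ≤ H → DegreePrimeTo ℓ L H →
      (∀ q : ℕ, q.Prime → q ≠ ℓ → CyclicSylow q K L) →
        ∃ n : ℕ, ¬ ℓ ∣ n ∧ (StarkUpTo n ι K L 𝔣 art ∨
          (¬ (ℓ = 2 ∧ TwoExtension K L) ∧ ∃ N, LargeSets N n ι K L 𝔣 art))) :
    StarkUpTo 1 ι K H 𝔣 art := by
  intro W hW
  obtain ⟨G, _, _, π, hπs, hπ, hJ⟩ := exists_quotient K H hKH hab
  choose rep hrep using hπs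
  have hπs : Function.Surjective π := fun g => ⟨rep g, hrep g⟩
  have hok : Ok H art rep 𝔣 :=
    ⟨fun g => hcont (rep g) (fixes_iff.2 (rep g).2), hart.fix, hart.mul⟩
  -- the group theoretic conditions
  have hgood : ∀ (ℓ : ℕ) (J : Subgroup G) (L : Sub), K ≤ L →
      (∀ σ : K.fixingSubgroup, Fixes L σ ↔ π σ ∈ J) → GoodSub ℓ J →
      DegreePrimeTo ℓ L H ∧ ∀ q : ℕ, q.Prime → q ≠ ℓ → CyclicSylow q K L := by
    intro ℓ J L hKL hL hg
    constructor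
    · intro σ hσ hσℓ
      have hσK : Fixes K σ := hσ.mono hKL
      have h1 := (hL ⟨σ, fixes_iff.1 hσK⟩).1 hσ
      have h2 := (hπ (⟨σ, fixes_iff.1 hσK⟩ ^ ℓ)).2 hσℓ
      rw [map_pow] at h2
      exact (hπ ⟨σ, fixes_iff.1 hσK⟩).1 (hg.1 _ h1 h2)
    · intro q hq hqℓ σ τ hσ hτ hσq hτq
      have h1 := (hL (⟨σ, fixes_iff.1 hσ⟩ ^ q)).1 hσq
      have h2 := (hL (⟨τ, fixes_iff.1 hτ⟩ ^ q)).1 hτq
      rw [map_pow] at h1 h2
      rcases hg.2 q hq hqℓ _ _ h1 h2 with h3 | ⟨k, hk⟩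
      · exact Or.inl ((hL ⟨σ, fixes_iff.1 hσ⟩).2 h3)
      · refine Or.inr ⟨k, ?_⟩
        rw [agree_iff]
        have h4 := (hL ((⟨σ, fixes_iff.1 hσ⟩ ^ k)⁻¹ * ⟨τ, fixes_iff.1 hτ⟩)).2 (by
          rw [map_mul, map_inv, map_pow, mul_comm]; exact hk)
        exact h4
  -- the maximal `2`-extension
  obtain ⟨B, hBodd, hBgood, hBtwo, hBmax⟩ := exists_odd_part G
  obtain ⟨LB, hKLB, hLBH, hLB⟩ := hJ B
  have hPB : ∃ m : ℕ, ¬ 2 ∣ m ∧ PP H art rep (unitFunctions ι K H W hW.1 π) m B 𝔣 := by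
    obtain ⟨h1, h2⟩ := hgood 2 B LB hKLB hLB hBgood
    obtain ⟨m, hm, h3⟩ := h 2 Nat.prime_two LB hKLB hLBH h1 h2
    have htwo : TwoExtension K LB := by
      intro σ hσ
      obtain ⟨k, hk⟩ := hBtwo (π ⟨σ, fixes_iff.1 hσ⟩)
      refine ⟨k, ?_⟩
      have h4 := (hLB (⟨σ, fixes_iff.1 hσ⟩ ^ 2 ^ k)).2 (by rw [map_pow]; exact hk)
      exact h4
    rcases h3 with h3 | ⟨h3, -⟩
    · exact ⟨m, hm, PP_of_stark hW hLBH hπ hrep hLB hok.fix hok.cont h3⟩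
    · exact absurd ⟨rfl, htwo⟩ h3
  obtain ⟨m, hm, hPB⟩ := hPB
  have hWpos : 0 < W := hW.1
  set Q := unitFunctions ι K H W hWpos π with hQ
  have hPJ : ∀ (ℓ : ℕ), ℓ.Prime → ∀ J : Subgroup G, GoodSub ℓ J →
      ∃ n : ℕ, ¬ ℓ ∣ n ∧ PP H art rep Q n J 𝔣 := by
    intro ℓ hℓ J hg
    obtain ⟨L, hKL, hLH, hL⟩ := hJ J
    obtain ⟨h1, h2⟩ := hgood ℓ J L hKL hL hg
    obtain ⟨n, hn, h3⟩ := h ℓ hℓ L hKL hLH h1 h2
    rcases h3 with h3 | ⟨-, N, h3⟩
    · exact ⟨n, hn, PP_of_stark hW hLH hπ hrep hL hok.fix hok.cont h3⟩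
    · refine large hW hKH hab hw hπs hπ hrep hℓ hKL hLH hL hm hBodd ?_ n hn N 𝔣 hok hPB h3
      intro h4
      rw [h4] at hg
      exact hBmax J hg
  -- the multiples of `dG` given by units, and the vanishing of `vG`
  have hmul : ∀ ℓ : ℕ, ℓ.Prime → ∃ M : ℤ, ¬ (ℓ : ℤ) ∣ M ∧ M • (dG H art rep 𝔣 : G → ℂ) ∈ Q ∧
      ∀ x, vG H art rep 𝔣 x = 0 := by
    intro ℓ hℓ
    obtain ⟨n, N, J, a, hn, hg, hrel⟩ := exists_norm_relation G ℓ hℓ
    choose m hm hP using fun i => hPJ ℓ hℓ (J i) (hg i)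
    have hn0 : (n : ℂ) ≠ 0 := by
      intro h0
      apply hn
      rw [Nat.cast_eq_zero] at h0
      rw [h0]
      exact dvd_zero _
    have hcomb : ∀ (F : G → ℂ) (x : G), ∑ i, ∑ g : G, (a i g : ℂ) * nm (J i) F (x * g) = n * F x := by
      intro F x
      rw [← comb_identity J a n hrel F x]
      refine Finset.sum_congr rfl fun i _ => Finset.sum_congr rfl fun g _ => ?_
      unfold nm
      congr 1
      refine Finset.sum_congr rfl fun y _ => ?_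
      split_ifs <;> simp
    refine ⟨(n : ℤ) * ∏ i, (m i : ℤ), ?_, ?_, ?_⟩
    · have hp : Prime (ℓ : ℤ) := Nat.prime_iff_prime_int.1 hℓ
      intro h0
      rcases hp.dvd_or_dvd h0 with h1 | h1
      · exact hn (by exact_mod_cast h1)
      · obtain ⟨i, -, hi⟩ := (hp.dvd_finsetProd_iff _).1 h1
        exact hm i (by exact_mod_cast hi)
    · have h1 : ((n : ℤ) * ∏ i, (m i : ℤ)) • (dG H art rep 𝔣 : G → ℂ) = ∑ i, ∑ g : G,
          (a i g * ∏ j ∈ Finset.univ.erase i, (m j : ℤ)) • fun x : G =>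
            (m i • fun x => nm (J i) (dG H art rep 𝔣) x) (x * g) := by
        funext x
        have h2 : ((∑ i, ∑ g : G,
            (a i g * ∏ j ∈ Finset.univ.erase i, (m j : ℤ)) • fun x : G =>
              (m i • fun x => nm (J i) (dG H art rep 𝔣) x) (x * g)) : G → ℂ) x =
            ∑ i, ∑ g : G, (∏ j, (m j : ℂ)) * ((a i g : ℂ) *
              nm (J i) (dG H art rep 𝔣) (x * g)) := by
          rw [Finset.sum_apply]
          refine Finset.sum_congr rfl fun i _ => ?_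
          rw [Finset.sum_apply]
          refine Finset.sum_congr rfl fun g _ => ?_
          rw [← Finset.mul_prod_erase Finset.univ (fun j => (m j : ℂ)) (Finset.mem_univ i),
            Pi.smul_apply, zsmul_eq_mul, Pi.smul_apply, nsmul_eq_mul]
          push_cast
          ring
        rw [h2]
        have h3 : ∑ i, ∑ g : G, (∏ j, (m j : ℂ)) * ((a i g : ℂ) *
              nm (J i) (dG H art rep 𝔣) (x * g)) =
            (∏ j, (m j : ℂ)) * ∑ i, ∑ g : G, (a i g : ℂ) *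
              nm (J i) (dG H art rep 𝔣) (x * g) := by
          rw [Finset.mul_sum]
          refine Finset.sum_congr rfl fun i _ => ?_
          rw [Finset.mul_sum]
        rw [h3, hcomb, Pi.smul_apply, zsmul_eq_mul]
        push_cast
        ring
      rw [h1]
      refine Q.sum_mem fun i _ => Q.sum_mem fun g _ => Q.zsmul_mem ?_ _
      have := unitFunctions_translate hWpos hKH hab π (hP i).2 (rep g)
      rw [hrep] at this
      exact this
    · intro x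
      have h1 := hcomb (vG H art rep 𝔣) x
      rw [Finset.sum_congr rfl fun i _ => Finset.sum_congr rfl fun g _ => by
        rw [(hP i).1, mul_zero]] at h1
      simp only [Finset.sum_const_zero] at h1
      rcases mul_eq_zero.1 h1.symm with h2 | h2
      · exact absurd h2 hn0
      · exact h2
  have hone : (1 : ℤ) ∈ (AddSubgroup.comap (zmultiplesHom (G → ℂ) (dG H art rep 𝔣)) Q) := by
    apply one_mem_of_prime
    intro ℓ hℓ
    obtain ⟨M, hM, hMz, -⟩ := hmul ℓ hℓ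
    exact ⟨M, hMz, hM⟩
  have hzQ : (dG H art rep 𝔣 : G → ℂ) ∈ Q := by
    have := AddSubgroup.mem_comap.1 hone
    simpa using this
  have hv0 := (hmul 2 Nat.prime_two).choose_spec.2.2
  obtain ⟨ε, hε, hε2⟩ := hzQ
  choose ZG hZG using fun g => hok.cont g
  refine ⟨fun σ => if hσ : Fixes K σ then ZG (π ⟨σ, fixes_iff.1 hσ⟩) else 0, ε, hε.mem, hε.ne_zero,
    ?_, hε.int, hε.int_inv, hε.abs, hε.root⟩
  intro σ hσ
  have hdif : (if hσ : Fixes K σ then ZG (π ⟨σ, fixes_iff.1 hσ⟩) else 0) =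
      ZG (π ⟨σ, fixes_iff.1 hσ⟩) := dif_pos hσ
  change IsZeta (cnt K H 𝔣 art σ) (if hσ : Fixes K σ then ZG (π ⟨σ, fixes_iff.1 hσ⟩) else 0) ∧
    (if hσ : Fixes K σ then ZG (π ⟨σ, fixes_iff.1 hσ⟩) else 0) 0 = 0 ∧
    _ = _ * deriv (if hσ : Fixes K σ then ZG (π ⟨σ, fixes_iff.1 hσ⟩) else 0) 0
  rw [hdif]
  refine ⟨?_, ?_, ?_⟩
  · have h1 := hZG (π ⟨σ, fixes_iff.1 hσ⟩)
    rw [← cG_eq hπ hrep 𝔣 ⟨σ, fixes_iff.1 hσ⟩] at h1
    exact h1
  · rw [← vz_eq (hZG (π ⟨σ, fixes_iff.1 hσ⟩))]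
    exact hv0 _
  · have h1 := hε2 ⟨σ, fixes_iff.1 hσ⟩
    rw [one_mul, ← dz_eq (hZG (π ⟨σ, fixes_iff.1 hσ⟩))]
    exact h1

end Pool.Agent.J4.H17.SR
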