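import Pool.Agent.J4.H17.SR.Core

/-! The recursion over the number of further primes. -/

set_option autoImplicit false

namespace Pool.Agent.J4.H17.SR
open NumberField
open Pool.Agent.K4H33.SK (Qbar GQ Fixes IsZeta AbelianRoot IsTorsionOrder cnt fixes_iff
  mem_of_fixed agree_iff exists_conj)

variable {ι : Qbar →+* ℂ} {K H : Sub} [NumberField K] {W : ℕ} {art : Ideal (𝓞 K) → GQ}
  {G : Type} [CommGroup G] [Fintype G] {π : K.fixingSubgroup →* G} {rep : G → K.fixingSubgroup}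

/-- The hypotheses on an ideal `𝔤`: continuation and Artin symbols. -/
structure Ok (H : Sub) (art : Ideal (𝓞 K) → GQ) (rep : G → K.fixingSubgroup)
    (𝔤 : Ideal (𝓞 K)) : Prop where
  cont : ∀ g, ∃ Z, IsZeta (cG H art rep 𝔤 g) Z
  fix : ∀ 𝔟, IsCoprime 𝔟 𝔤 → Fixes K (art 𝔟)
  mul : ∀ 𝔟 𝔠 : Ideal (𝓞 K), IsCoprime 𝔟 𝔤 → IsCoprime 𝔠 𝔤 →
    ∀ x ∈ H, art (𝔟 * 𝔠) x = art 𝔟 (art 𝔠 x)

lemma Ok.next (hπ : ∀ σ : K.fixingSubgroup, π σ = 1 ↔ Fixes H σ) (hrep : ∀ g, π (rep g) = g)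
    {𝔤 𝔮 : Ideal (𝓞 K)} (h : Ok H art rep 𝔤) (hq : 𝔮.IsPrime) (hq0 : 𝔮 ≠ ⊥)
    (hqg : IsCoprime 𝔮 𝔤) : Ok H art rep (𝔤 * 𝔮) :=
  ⟨fun g => (euler_G hπ hrep 𝔤 𝔮 hq hq0 hqg h.mul (h.fix 𝔮 hqg) h.cont g).1,
    fun 𝔟 hb => h.fix 𝔟 hb.of_mul_right_left,
    fun 𝔟 𝔠 hb hc => h.mul 𝔟 𝔠 hb.of_mul_right_left hc.of_mul_right_left⟩

/-- Relation between the functions for `𝔤` and `𝔤 * 𝔮`. -/
lemma nm_next (hπ : ∀ σ : K.fixingSubgroup, π σ = 1 ↔ Fixes H σ) (hrep : ∀ g, π (rep g) = g)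
    {𝔤 𝔮 : Ideal (𝓞 K)} (h : Ok H art rep 𝔤) (hq : 𝔮.IsPrime) (hq0 : 𝔮 ≠ ⊥)
    (hqg : IsCoprime 𝔮 𝔤) (J : Subgroup G) (x : G) :
    nm J (vG H art rep (𝔤 * 𝔮)) x = nm J (vG H art rep 𝔤) x -
      nm J (vG H art rep 𝔤) (x * (π ⟨art 𝔮, fixes_iff.1 (h.fix 𝔮 hqg)⟩)⁻¹) ∧
    nm J (dG H art rep (𝔤 * 𝔮)) x = nm J (dG H art rep 𝔤) x -
      nm J (dG H art rep 𝔤) (x * (π ⟨art 𝔮, fixes_iff.1 (h.fix 𝔮 hqg)⟩)⁻¹) +
      Real.log (Ideal.absNorm 𝔮) *
        nm J (vG H art rep 𝔤) (x * (π ⟨art 𝔮, fixes_iff.1 (h.fix 𝔮 hqg)⟩)⁻¹) := by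
  set q := (π ⟨art 𝔮, fixes_iff.1 (h.fix 𝔮 hqg)⟩)⁻¹ with hq'
  have h1 := fun g => (euler_G hπ hrep 𝔤 𝔮 hq hq0 hqg h.mul (h.fix 𝔮 hqg) h.cont g).2
  constructor
  · have h2 : vG H art rep (𝔤 * 𝔮) = fun y => 1 * vG H art rep 𝔤 y +
        (-1) * (fun y => vG H art rep 𝔤 (y * q)) y := by
      funext y
      rw [(h1 y).2]
      ring
    rw [h2, nm_lin, nm_shift]
    ring
  · have h2 : dG H art rep (𝔤 * 𝔮) = fun y => 1 * (fun y => 1 * dG H art rep 𝔤 y +
        (-1) * (fun y => dG H art rep 𝔤 (y * q)) y) y +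
          (Real.log (Ideal.absNorm 𝔮) : ℂ) * (fun y => vG H art rep 𝔤 (y * q)) y := by
      funext y
      rw [(h1 y).1]
      ring
    rw [h2, nm_lin, nm_lin, nm_shift, nm_shift]
    ring

lemma PP.next (hWH : 0 < W) (hKH : K ≤ H) (hab : AbelianOver K H)
    (hπ : ∀ σ : K.fixingSubgroup, π σ = 1 ↔ Fixes H σ) (hrep : ∀ g, π (rep g) = g)
    {𝔤 𝔮 : Ideal (𝓞 K)} (h : Ok H art rep 𝔤) (hq : 𝔮.IsPrime) (hq0 : 𝔮 ≠ ⊥)
    (hqg : IsCoprime 𝔮 𝔤) {J : Subgroup G} {n : ℕ}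
    (hP : PP H art rep (unitFunctions ι K H W hWH π) n J 𝔤) :
    PP H art rep (unitFunctions ι K H W hWH π) n J (𝔤 * 𝔮) := by
  have h1 := nm_next hπ hrep h hq hq0 hqg J
  refine ⟨fun x => by rw [(h1 x).1, hP.1, hP.1, sub_zero], ?_⟩
  have h2 : (fun x => nm J (dG H art rep (𝔤 * 𝔮)) x) = (fun x => nm J (dG H art rep 𝔤) x) -
      fun x => (fun x => nm J (dG H art rep 𝔤) x)
        (x * (π ⟨art 𝔮, fixes_iff.1 (h.fix 𝔮 hqg)⟩)⁻¹) := by
    funext x
    rw [(h1 x).2, hP.1]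
    simp
  rw [h2, smul_sub]
  refine AddSubgroup.sub_mem _ hP.2 ?_
  have h3 := unitFunctions_translate hWH hKH hab π hP.2
    (⟨art 𝔮, fixes_iff.1 (h.fix 𝔮 hqg)⟩)⁻¹
  rw [map_inv] at h3
  exact h3

/-- The Frobenius automorphisms of the admissible primes generate. -/
lemma gen_top (hπ : ∀ σ : K.fixingSubgroup, π σ = 1 ↔ Fixes H σ) (hrep : ∀ g, π (rep g) = g)
    {L : Sub} (hKL : K ≤ L) {J : Subgroup G}
    (hJ : ∀ σ : K.fixingSubgroup, Fixes L σ ↔ π σ ∈ J) {n N : ℕ} {𝔤 : Ideal (𝓞 K)}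
    (hok : Ok H art rep 𝔤) (hS : LargeSets (N + 1) n ι K L 𝔤 art) (U : Subgroup G) (hJU : J ≤ U)
    (h : ∀ 𝔮 : Ideal (𝓞 K), 𝔮.IsPrime → 𝔮 ≠ ⊥ → ∀ hqg : IsCoprime 𝔮 𝔤,
      LargeSets N n ι K L (𝔤 * 𝔮) art → π ⟨art 𝔮, fixes_iff.1 (hok.fix 𝔮 hqg)⟩ ∈ U) :
    ∀ g, g ∈ U := by
  by_contra hne
  push Not at hne
  obtain ⟨g, hg⟩ := hne
  have h1 : ∀ σ : GQ, σ ∈ (U.comap π).map K.fixingSubgroup.subtype ↔
      ∃ hσ : Fixes K σ, π ⟨σ, fixes_iff.1 hσ⟩ ∈ U := by
    intro σ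
    constructor
    · rintro ⟨τ, hτ, rfl⟩
      exact ⟨fixes_iff.2 τ.2, hτ⟩
    · rintro ⟨hσ, hσ2⟩
      exact ⟨⟨σ, fixes_iff.1 hσ⟩, hσ2, rfl⟩
  obtain ⟨𝔮, ⟨hq, hq0⟩, hqg, hqU, hS'⟩ := hS ((U.comap π).map K.fixingSubgroup.subtype)
    (fun σ hσ => (h1 σ).2 ⟨hσ.mono hKL, hJU ((hJ ⟨σ, fixes_iff.1 (hσ.mono hKL)⟩).1 hσ)⟩)
    ⟨rep g, fixes_iff.2 (rep g).2, fun h2 => by
      obtain ⟨h3, h4⟩ := (h1 _).1 h2
      apply hg
      have h5 : π ⟨(rep g : GQ), fixes_iff.1 h3⟩ = g := hrep g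
      rwa [h5] at h4⟩
  exact hqU ((h1 _).2 ⟨hok.fix 𝔮 hqg, h 𝔮 hq hq0 hqg hS'⟩)

/-- The recursion. -/
lemma large (hWH : IsTorsionOrder H W) (hKH : K ≤ H) (hab : AbelianOver K H)
    (hw : ∃ w : Qbar →+* ℂ, NotAbove ι K w ∧ ∀ x ∈ K, (w x).im = 0)
    (hπs : Function.Surjective π)
    (hπ : ∀ σ : K.fixingSubgroup, π σ = 1 ↔ Fixes H σ) (hrep : ∀ g, π (rep g) = g)
    {ℓ : ℕ} (hℓ : ℓ.Prime) {L : Sub} (hKL : K ≤ L) (hLH : L ≤ H) {J B : Subgroup G}
    (hJ : ∀ σ : K.fixingSubgroup, Fixes L σ ↔ π σ ∈ J)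
    {m : ℕ} (hm : ¬ 2 ∣ m) (hB : ¬ 2 ∣ crd B) (hJB : ℓ = 2 → J ≤ B) (n : ℕ) (hn : ¬ ℓ ∣ n) (N : ℕ) :
    ∀ 𝔤 : Ideal (𝓞 K), Ok H art rep 𝔤 →
      PP H art rep (unitFunctions ι K H W hWH.1 π) m B 𝔤 → LargeSets N n ι K L 𝔤 art →
      ∃ n' : ℕ, ¬ ℓ ∣ n' ∧ PP H art rep (unitFunctions ι K H W hWH.1 π) n' J 𝔤 := by
  classical
  obtain ⟨c, hc⟩ := conj_neg (H := H) hWH.1 hw π hπs
  induction N with
  | zero =>
    intro 𝔤 hok hPB hS
    exact ⟨n, hn, PP_of_stark hWH hLH hπ hrep hJ hok.fix hok.cont hS⟩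
  | succ N ih =>
    intro 𝔤 hok hPB hS
    have hnext : ∀ 𝔮 : Ideal (𝓞 K), 𝔮.IsPrime → 𝔮 ≠ ⊥ → IsCoprime 𝔮 𝔤 →
        LargeSets N n ι K L (𝔤 * 𝔮) art → ∃ n' : ℕ, ¬ ℓ ∣ n' ∧
          PP H art rep (unitFunctions ι K H W hWH.1 π) n' J (𝔤 * 𝔮) := fun 𝔮 hq hq0 hqg hS' =>
      ih (𝔤 * 𝔮) (hok.next hπ hrep hq hq0 hqg) (PP.next hWH.1 hKH hab hπ hrep hok hq hq0 hqg hPB) hS'
    -- sums over the group
    have hcrdB : ((crd B : ℕ) : ℂ) ≠ 0 := by
      intro h0
      apply hB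
      rw [Nat.cast_eq_zero] at h0
      rw [h0]
      exact dvd_zero _
    have hm0 : (m : ℂ) ≠ 0 := by
      intro h0
      apply hm
      rw [Nat.cast_eq_zero] at h0
      rw [h0]
      exact dvd_zero _
    have hv0 : ∑ x, vG H art rep 𝔤 x = 0 := by
      have h2 := sum_nm B (vG H art rep 𝔤)
      rw [Finset.sum_congr rfl fun x _ => hPB.1 x, Finset.sum_const_zero] at h2
      rcases mul_eq_zero.1 h2.symm with h3 | h3
      · exact absurd h3 hcrdB
      · exact h3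
    have hd0 : ∑ x, dG H art rep 𝔤 x = 0 := by
      have h2 := hc _ hPB.2
      have h3 : ∑ x : G, (m • fun x => nm B (dG H art rep 𝔤) x) (x * c) =
          ∑ x : G, (m • fun x => nm B (dG H art rep 𝔤) x) x :=
        Fintype.sum_equiv (Equiv.mulRight c) _ _ fun x => rfl
      rw [Finset.sum_congr rfl fun x _ => h2 x, Finset.sum_neg_distrib] at h3
      have h4 : ∑ x : G, (m • fun x => nm B (dG H art rep 𝔤) x) x =
          (m : ℂ) * (crd B * ∑ x, dG H art rep 𝔤 x) := by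
        rw [← sum_nm, Finset.mul_sum]
        refine Finset.sum_congr rfl fun x _ => ?_
        rw [Pi.smul_apply, nsmul_eq_mul]
      have h5 : (m : ℂ) * (crd B * ∑ x, dG H art rep 𝔤 x) = 0 := by
        rw [h4] at h3
        linear_combination (-1 / 2 : ℂ) * h3
      rcases mul_eq_zero.1 h5 with h6 | h6
      · exact absurd h6 hm0
      · rcases mul_eq_zero.1 h6 with h7 | h7
        · exact absurd h7 hcrdB
        · exact h7
    -- the values at zero vanish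
    have hvJ : ∀ x, nm J (vG H art rep 𝔤) x = 0 := by
      let U₀ : Subgroup G :=
        { carrier := {g | ∀ y, nm J (vG H art rep 𝔤) y = nm J (vG H art rep 𝔤) (y * g⁻¹)}
          mul_mem' := by
            intro a b ha hb y
            rw [ha y, hb (y * a⁻¹), mul_inv, mul_assoc]
          one_mem' := by intro y; rw [inv_one, mul_one]
          inv_mem' := by
            intro a ha y
            rw [ha (y * a⁻¹⁻¹), inv_inv, mul_assoc, mul_inv_cancel, mul_one] }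
      have h2 : ∀ x, x ∈ U₀ := by
        refine gen_top hπ hrep hKL hJ hok hS U₀ ?_ ?_
        · intro j hj y
          exact (nm_mul_mem J _ y (J.inv_mem hj)).symm
        · intro 𝔮 hq hq0 hqg hS' y
          obtain ⟨n', -, hP⟩ := hnext 𝔮 hq hq0 hqg hS'
          have h3 := (nm_next hπ hrep hok hq hq0 hqg J y).1
          rw [hP.1 y] at h3
          exact sub_eq_zero.1 h3.symm
      have h3 : ∀ y, nm J (vG H art rep 𝔤) y = nm J (vG H art rep 𝔤) 1 := by
        intro y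
        have h4 : nm J (vG H art rep 𝔤) y = nm J (vG H art rep 𝔤) (y * y⁻¹) := h2 y y
        rwa [mul_inv_cancel] at h4
      have h4 := sum_nm J (vG H art rep 𝔤)
      rw [hv0, mul_zero, Finset.sum_congr rfl fun y _ => h3 y, Finset.sum_const, nsmul_eq_mul] at h4
      have h5 : nm J (vG H art rep 𝔤) 1 = 0 := by
        rcases mul_eq_zero.1 h4 with h6 | h6
        · exact absurd h6 (by
            rw [Finset.card_univ]
            exact_mod_cast Fintype.card_ne_zero)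
        · exact h6
      intro x
      rw [h3 x, h5]
    -- the differences
    have hdiff' : ∀ g : G, ∃ n' : ℕ, ¬ ℓ ∣ n' ∧
        n' • (fun x => nm J (dG H art rep 𝔤) x - nm J (dG H art rep 𝔤) (x * g⁻¹)) ∈
          unitFunctions ι K H W hWH.1 π := by
      have htr : ∀ (u : G → ℂ), u ∈ unitFunctions ι K H W hWH.1 π → ∀ g : G,
          (fun x => u (x * g)) ∈ unitFunctions ι K H W hWH.1 π := by
        intro u hu g
        have := unitFunctions_translate hWH.1 hKH hab π hu (rep g)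
        rwa [hrep] at this
      let U₁ : Subgroup G :=
        { carrier := {g | ∃ n' : ℕ, ¬ ℓ ∣ n' ∧
            n' • (fun x => nm J (dG H art rep 𝔤) x - nm J (dG H art rep 𝔤) (x * g⁻¹)) ∈
              unitFunctions ι K H W hWH.1 π}
          mul_mem' := by
            rintro a b ⟨p, hp, hp2⟩ ⟨q, hq, hq2⟩
            refine ⟨p * q, fun h0 => ((hℓ.dvd_mul).1 h0).elim hp hq, ?_⟩
            have h3 : (p * q) • (fun x => nm J (dG H art rep 𝔤) x -
                nm J (dG H art rep 𝔤) (x * (a * b)⁻¹)) =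
                q • (p • (fun x => nm J (dG H art rep 𝔤) x - nm J (dG H art rep 𝔤) (x * a⁻¹))) +
                p • (fun x => (q • (fun x => nm J (dG H art rep 𝔤) x -
                  nm J (dG H art rep 𝔤) (x * b⁻¹))) (x * a⁻¹)) := by
              funext x
              simp only [Pi.smul_apply, Pi.add_apply]
              simp only [nsmul_eq_mul]
              rw [mul_inv, ← mul_assoc]
              push_cast
              ring
            rw [h3]
            exact AddSubgroup.add_mem _ (AddSubgroup.nsmul_mem _ hp2 _)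
              (AddSubgroup.nsmul_mem _ (htr _ hq2 a⁻¹) _)
          one_mem' := by
            refine ⟨1, fun h0 => hℓ.one_lt.ne' (Nat.dvd_one.1 h0), ?_⟩
            have h3 : (1 • (fun x => nm J (dG H art rep 𝔤) x -
                nm J (dG H art rep 𝔤) (x * (1 : G)⁻¹)) : G → ℂ) = 0 := by
              funext x
              simp
            rw [h3]
            exact AddSubgroup.zero_mem _
          inv_mem' := by
            rintro a ⟨p, hp, hp2⟩
            refine ⟨p, hp, ?_⟩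
            have h3 : p • (fun x => nm J (dG H art rep 𝔤) x -
                nm J (dG H art rep 𝔤) (x * a⁻¹⁻¹)) =
                -(fun x => (p • (fun x => nm J (dG H art rep 𝔤) x -
                  nm J (dG H art rep 𝔤) (x * a⁻¹))) (x * a)) := by
              funext x
              simp only [Pi.smul_apply, Pi.neg_apply]
              simp only [nsmul_eq_mul]
              rw [inv_inv, mul_assoc, mul_inv_cancel, mul_one]
              ring
            rw [h3]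
            exact AddSubgroup.neg_mem _ (htr _ hp2 a) }
      have h2 : ∀ x, x ∈ U₁ := by
        refine gen_top hπ hrep hKL hJ hok hS U₁ ?_ ?_
        · intro j hj
          refine ⟨1, fun h0 => hℓ.one_lt.ne' (Nat.dvd_one.1 h0), ?_⟩
          have h3 : (1 • (fun x => nm J (dG H art rep 𝔤) x -
              nm J (dG H art rep 𝔤) (x * j⁻¹)) : G → ℂ) = 0 := by
            funext x
            rw [one_smul, nm_mul_mem J _ x (J.inv_mem hj), sub_self]
            rfl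
          rw [h3]
          exact AddSubgroup.zero_mem _
        · intro 𝔮 hq hq0 hqg hS'
          obtain ⟨n', hn', hP⟩ := hnext 𝔮 hq hq0 hqg hS'
          refine ⟨n', hn', ?_⟩
          have h3 : (fun x => nm J (dG H art rep (𝔤 * 𝔮)) x) =
              fun x => nm J (dG H art rep 𝔤) x - nm J (dG H art rep 𝔤)
                (x * (π ⟨art 𝔮, fixes_iff.1 (hok.fix 𝔮 hqg)⟩)⁻¹) := by
            funext x
            rw [(nm_next hπ hrep hok hq hq0 hqg J x).2, hvJ]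
            simp
          have h4 := hP.2
          rw [h3] at h4
          exact h4
      exact h2
    choose n' hn' hdiff'' using hdiff'
    set n₁ : ℕ := ∏ x, n' x with hn₁
    have hn₁ℓ : ¬ ℓ ∣ n₁ := by
      intro h0
      obtain ⟨x, -, hx⟩ := (hℓ.prime.dvd_finsetProd_iff _).1 h0
      exact hn' x hx
    have hdiff : ∀ g : G, n₁ • (fun x => nm J (dG H art rep 𝔤) x - nm J (dG H art rep 𝔤) (x * g)) ∈
        unitFunctions ι K H W hWH.1 π := by
      intro g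
      have h2 := hdiff'' g⁻¹
      rw [inv_inv] at h2
      rw [hn₁, ← Finset.prod_erase_mul _ _ (Finset.mem_univ g⁻¹), mul_smul]
      exact AddSubgroup.nsmul_mem _ h2 _
    by_cases h2 : ℓ = 2
    · have hJB' := hJB h2
      refine ⟨n₁ * m * crd B, ?_, hvJ, ?_⟩
      · subst h2
        rw [hℓ.dvd_mul, hℓ.dvd_mul]
        rintro ((h3 | h3) | h3)
        · exact hn₁ℓ h3
        · exact hm h3
        · exact hB h3
      · refine descent_two _ B (fun x => nm J (dG H art rep 𝔤) x) n₁ m hdiff ?_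
        have h3 : (fun x => ∑ b : G, if b ∈ B then nm J (dG H art rep 𝔤) (x * b) else 0) =
            (crd J) • fun x => nm B (dG H art rep 𝔤) x := by
          funext x
          rw [sum_nm_le hJB', Pi.smul_apply, nsmul_eq_mul]
        have h4 : (m • fun x => ∑ b : G, if b ∈ B then nm J (dG H art rep 𝔤) (x * b) else 0) =
            crd J • (m • fun x => nm B (dG H art rep 𝔤) x) := by
          rw [h3, smul_comm]
        change (m • fun x => ∑ b : G, if b ∈ B then nm J (dG H art rep 𝔤) (x * b) else 0) ∈ _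
        rw [h4]
        exact AddSubgroup.nsmul_mem _ hPB.2 _
    · refine ⟨2 * n₁, ?_, hvJ, ?_⟩
      · rw [hℓ.dvd_mul]
        rintro (h3 | h3)
        · exact h2 ((Nat.prime_dvd_prime_iff_eq hℓ Nat.prime_two).1 h3)
        · exact hn₁ℓ h3
      · have hn0 : n₁ ≠ 0 := by
          intro h0
          apply hn₁ℓ
          rw [h0]
          exact dvd_zero _
        refine descent_odd _ c hc (fun x => nm J (dG H art rep 𝔤) x) ?_ n₁ hn0 hdiff
        rw [sum_nm, hd0, mul_zero]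

end Pool.Agent.J4.H17.SR
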