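import Pool.Agent.J4.H17.SR.Defs

/-! Piece ROOT: roots of units and abelian extensions (second copy). -/

set_option autoImplicit false

namespace Pool.Agent.J4.H17.SR.Two
open NumberField
open Pool.Agent.K4H33.SK (Qbar GQ Fixes IsZeta AbelianRoot IsTorsionOrder IsArtin cnt)

theorem root_image {W : ℕ} (hW : 0 < W) : ∃ ζ : Qbar, IsPrimitiveRoot ζ W := by
  have : NeZero W := ⟨hW.ne'⟩
  have : NeZero ((W : ℕ) : Qbar) := ⟨by exact_mod_cast hW.ne'⟩
  exact HasEnoughRootsOfUnity.exists_primitiveRoot Qbar W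

theorem comm_root {ξ : Qbar} {W : ℕ} (hW : 0 < W) (h : ξ ^ W = 1) (σ τ : GQ) :
    σ (τ ξ) = τ (σ ξ) := by
  obtain ⟨ζ, hζ⟩ := root_image hW
  have : NeZero W := ⟨hW.ne'⟩
  obtain ⟨i, -, rfl⟩ := hζ.eq_pow_of_pow_eq_one h
  have h1 : ∀ ρ : GQ, ∃ j : ℕ, ρ ζ = ζ ^ j := fun ρ => by
    have h2 : (ρ ζ) ^ W = 1 := by rw [← map_pow, hζ.pow_eq_one, map_one]
    obtain ⟨j, -, hj⟩ := hζ.eq_pow_of_pow_eq_one h2
    exact ⟨j, hj.symm⟩
  obtain ⟨a, ha⟩ := h1 σ
  obtain ⟨b, hb⟩ := h1 τ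
  simp only [map_pow, ha, hb]
  ring

theorem abelianRoot_one (K : Sub) {W : ℕ} (hW : 0 < W) : AbelianRoot K W 1 :=
  fun _ hlam σ τ _ _ => comm_root hW hlam σ τ

/-- A `W`-th root. -/
theorem exists_root {W : ℕ} (hW : 0 < W) (x : Qbar) : ∃ y : Qbar, y ^ W = x :=
  IsAlgClosed.exists_pow_nat_eq x hW

theorem abelianRoot_of {K : Sub} {W : ℕ} (hW : 0 < W) {x y : Qbar} (hx : x ≠ 0) (hy : y ^ W = x)
    (h : ∀ σ τ : GQ, Fixes K σ → Fixes K τ → σ (τ y) = τ (σ y)) : AbelianRoot K W x := by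
  intro lam hlam σ τ hσ hτ
  have hy0 : y ≠ 0 := by
    rintro rfl
    exact hx (by rw [← hy, zero_pow hW.ne'])
  have h1 : (lam / y) ^ W = 1 := by
    rw [div_pow, hlam, hy, div_self hx]
  have h2 : lam = lam / y * y := by field_simp
  rw [h2, map_mul, map_mul, map_mul, map_mul, comm_root hW h1 σ τ, h σ τ hσ hτ]

theorem abelianRoot_mul {K : Sub} {W : ℕ} (hW : 0 < W) {x y : Qbar} (hx : x ≠ 0)
    (h : AbelianRoot K W x) (h' : AbelianRoot K W y) : AbelianRoot K W (x * y) := by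
  intro lam hlam σ τ hσ hτ
  obtain ⟨u, hu⟩ := exists_root hW x
  have hu0 : u ≠ 0 := by
    rintro rfl
    exact hx (by rw [← hu, zero_pow hW.ne'])
  have h1 : (lam / u) ^ W = y := by
    rw [div_pow, hlam, hu]
    field_simp
  have h2 : lam = lam / u * u := by field_simp
  rw [h2, map_mul, map_mul, map_mul, map_mul, h' _ h1 σ τ hσ hτ, h u hu σ τ hσ hτ]

theorem abelianRoot_inv {K : Sub} {W : ℕ} {x : Qbar}
    (h : AbelianRoot K W x) : AbelianRoot K W x⁻¹ := by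
  intro lam hlam σ τ hσ hτ
  have h1 : (lam⁻¹) ^ W = x := by rw [inv_pow, hlam, inv_inv]
  have h2 := h _ h1 σ τ hσ hτ
  simp only [map_inv₀] at h2
  exact inv_injective h2

theorem abelianRoot_pow {K : Sub} {W : ℕ} (hW : 0 < W) {x : Qbar} (hx : x ≠ 0)
    (h : AbelianRoot K W x) (n : ℕ) : AbelianRoot K W (x ^ n) := by
  induction n with
  | zero => rw [pow_zero]; exact abelianRoot_one K hW
  | succ n ih => rw [pow_succ]; exact abelianRoot_mul hW (pow_ne_zero _ hx) ih h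

theorem abelianRoot_zpow {K : Sub} {W : ℕ} (hW : 0 < W) {x : Qbar} (hx : x ≠ 0)
    (h : AbelianRoot K W x) (n : ℤ) : AbelianRoot K W (x ^ n) := by
  obtain ⟨m, rfl | rfl⟩ := n.eq_nat_or_neg
  · rw [zpow_natCast]; exact abelianRoot_pow hW hx h m
  · rw [zpow_neg, zpow_natCast]; exact abelianRoot_inv (abelianRoot_pow hW hx h m)

theorem abelianRoot_apply {K : Sub} {W : ℕ} (hW : 0 < W) {x : Qbar}
    (h : AbelianRoot K W x) (g : GQ) (hg : Fixes K g) : AbelianRoot K W (g x) := by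
  intro lam hlam σ τ hσ hτ
  have h1 : (g.symm lam) ^ W = x := by
    rw [← map_pow, hlam]
    exact g.symm_apply_apply x
  have h2 : lam = g (g.symm lam) := (g.apply_symm_apply lam).symm
  have hmul : ∀ a b : GQ, Fixes K a → Fixes K b → Fixes K (a * b) := fun a b ha hb x hx => by
    show a (b x) = x
    rw [hb x hx, ha x hx]
  have key : ∀ a b : GQ, Fixes K a → Fixes K b →
      a (b (g.symm lam)) = b (a (g.symm lam)) := fun a b ha hb => h _ h1 a b ha hb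
  rw [h2]
  calc σ (τ (g (g.symm lam))) = (σ * τ) (g (g.symm lam)) := rfl
    _ = g ((σ * τ) (g.symm lam)) := key _ _ (hmul σ τ hσ hτ) hg
    _ = g (τ (σ (g.symm lam))) := by rw [← key σ τ hσ hτ]; rfl
    _ = (τ * σ) (g (g.symm lam)) := key g (τ * σ) hg (hmul τ σ hτ hσ)
    _ = τ (σ (g (g.symm lam))) := rfl

theorem abelianRoot_raise {K : Sub} {W d : ℕ} (hW : 0 < W * d) {x : Qbar} (hx : x ≠ 0)
    (h : AbelianRoot K W x) : AbelianRoot K (W * d) (x ^ d) := by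
  have hW' : 0 < W := Nat.pos_of_mul_pos_right hW
  obtain ⟨u, hu⟩ := exists_root hW' x
  refine abelianRoot_of hW (y := u) (pow_ne_zero _ hx) ?_ fun σ τ hσ hτ => h u hu σ τ hσ hτ
  rw [pow_mul, hu]

end Pool.Agent.J4.H17.SR.Two
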