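import Pool.Agent.J4.H17.SR.Defs

/-! Project SR (helper17), piece TOR (helper90): the number of roots of unity of a subfield. -/

set_option autoImplicit false

namespace Pool.Agent.J4.H17.SR
open NumberField
open Pool.Agent.K4H33.SK (Qbar GQ Fixes IsZeta AbelianRoot IsTorsionOrder IsArtin cnt)

theorem exists_torsion {L H : Sub} (hLH : L ≤ H) {W : ℕ} (hW : IsTorsionOrder H W) :
    ∃ W' : ℕ, IsTorsionOrder L W' ∧ W' ∣ W := by
  classical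
  obtain ⟨hW0, hWH⟩ := hW
  have : NeZero W := ⟨hW0.ne'⟩
  have : NeZero (W : Qbar) := NeZero.charZero
  obtain ⟨ζ, hζ⟩ := HasEnoughRootsOfUnity.exists_primitiveRoot Qbar W
  have hex : ∃ n : ℕ, 0 < n ∧ ζ ^ n ∈ L := ⟨W, hW0, by rw [hζ.pow_eq_one]; exact one_mem L⟩
  set e := Nat.find hex with he
  obtain ⟨he0, heL⟩ : 0 < e ∧ ζ ^ e ∈ L := Nat.find_spec hex
  have hdvd : ∀ k : ℕ, ζ ^ k ∈ L → e ∣ k := by
    intro k hk
    rw [Nat.dvd_iff_mod_eq_zero]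
    by_contra h0
    have h1 : ζ ^ (k % e) ∈ L := by
      have h2 : ζ ^ k = (ζ ^ e) ^ (k / e) * ζ ^ (k % e) := by
        rw [← pow_mul, ← pow_add, Nat.div_add_mod]
      have h3 : (ζ ^ e) ^ (k / e) ≠ 0 := pow_ne_zero _ (pow_ne_zero _ (hζ.ne_zero hW0.ne'))
      have h4 : ζ ^ (k % e) = ζ ^ k / (ζ ^ e) ^ (k / e) := by
        rw [h2]; field_simp
      rw [h4]
      exact div_mem hk (pow_mem heL _)
    exact Nat.find_min hex (Nat.mod_lt k he0) ⟨Nat.pos_of_ne_zero h0, h1⟩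
  have heW : e ∣ W := hdvd W (by rw [hζ.pow_eq_one]; exact one_mem L)
  obtain ⟨f, hf⟩ := heW
  have hf0 : 0 < f := Nat.pos_of_ne_zero fun h => by rw [h, mul_zero] at hf; omega
  refine ⟨f, ⟨hf0, fun ξ => ⟨?_, fun h => ?_⟩⟩, ⟨e, by rw [hf, mul_comm]⟩⟩
  · rintro ⟨hξ, n, hn, hξn⟩
    have h1 : ξ ^ W = 1 := (hWH ξ).1 ⟨hLH hξ, n, hn, hξn⟩
    obtain ⟨i, -, rfl⟩ := hζ.eq_pow_of_pow_eq_one h1
    obtain ⟨j, rfl⟩ := hdvd i hξ
    rw [← pow_mul, mul_right_comm, ← hf, pow_mul, hζ.pow_eq_one, one_pow]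
  · have h1 : ξ ^ W = 1 := by rw [hf, mul_comm, pow_mul, h, one_pow]
    obtain ⟨i, -, rfl⟩ := hζ.eq_pow_of_pow_eq_one h1
    refine ⟨?_, f, hf0, h⟩
    rw [← pow_mul, hζ.pow_eq_one_iff_dvd, hf] at h
    obtain ⟨j, hj⟩ := Nat.dvd_of_mul_dvd_mul_right hf0 h
    rw [hj, pow_mul]
    exact pow_mem heL j

end Pool.Agent.J4.H17.SR
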