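import Pool.Agent.J4.H17.SR.Zed
import Pool.Agent.J4.H17.SR.Root2

/-! The units: a submodule of the functions on the Galois group. -/

set_option autoImplicit false

namespace Pool.Agent.J4.H17.SR
open Two
open NumberField
open Pool.Agent.K4H33.SK (Qbar GQ Fixes IsZeta AbelianRoot IsTorsionOrder IsArtin cnt fixes_iff
  mem_of_fixed)

lemma apply_mem {K H : Sub} (hKH : K ≤ H) (hab : AbelianOver K H) {g : GQ} (hg : Fixes K g)
    {x : Qbar} (hx : x ∈ H) : g x ∈ H := by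
  apply mem_of_fixed
  intro τ hτ
  rw [hab τ g (hτ.mono hKH) hg x hx, hτ x hx]

lemma NotAbove.comp {ι : Qbar →+* ℂ} {K : Sub} {w : Qbar →+* ℂ} (h : NotAbove ι K w) {g : GQ}
    (hg : Fixes K g) : NotAbove ι K (w.comp (g : Qbar →+* Qbar)) := by
  obtain ⟨⟨x, hx, h1⟩, y, hy, h2⟩ := h
  refine ⟨⟨x, hx, ?_⟩, y, hy, ?_⟩
  · have : (w.comp (g : Qbar →+* Qbar)) x = w x := by
      change w (g x) = w x
      rw [hg x hx]
    rw [this]; exact h1
  · have : (w.comp (g : Qbar →+* Qbar)) y = w y := by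
      change w (g y) = w y
      rw [hg y hy]
    rw [this]; exact h2

/-- The conditions on the unit which do not involve zeta functions. -/
structure IsUnitFor (ι : Qbar →+* ℂ) (K H : Sub) (W : ℕ) (ε : Qbar) : Prop where
  mem : ε ∈ H
  ne_zero : ε ≠ 0
  int : IsIntegral ℤ ε
  int_inv : IsIntegral ℤ ε⁻¹
  abs : ∀ w : Qbar →+* ℂ, NotAbove ι K w → ‖w ε‖ = 1
  root : AbelianRoot K W ε

variable {ι : Qbar →+* ℂ} {K H : Sub} {W : ℕ}

lemma IsUnitFor.one (hW : 0 < W) : IsUnitFor ι K H W 1 :=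
  ⟨one_mem _, one_ne_zero, isIntegral_one, by simpa using isIntegral_one,
    fun w _ => by simp, abelianRoot_one K hW⟩

lemma IsUnitFor.mul (hW : 0 < W) {x y : Qbar} (h : IsUnitFor ι K H W x) (h' : IsUnitFor ι K H W y) :
    IsUnitFor ι K H W (x * y) :=
  ⟨mul_mem h.mem h'.mem, mul_ne_zero h.ne_zero h'.ne_zero, h.int.mul h'.int,
    by rw [mul_inv]; exact h.int_inv.mul h'.int_inv,
    fun w hw => by rw [map_mul, norm_mul, h.abs w hw, h'.abs w hw, one_mul],
    abelianRoot_mul hW h.ne_zero h.root h'.root⟩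

lemma IsUnitFor.inv (hW : 0 < W) {x : Qbar} (h : IsUnitFor ι K H W x) :
    IsUnitFor ι K H W x⁻¹ :=
  ⟨inv_mem h.mem, inv_ne_zero h.ne_zero, h.int_inv, by rw [inv_inv]; exact h.int,
    fun w hw => by rw [map_inv₀, norm_inv, h.abs w hw, inv_one],
    by simpa using abelianRoot_zpow hW h.ne_zero h.root (-1)⟩

lemma IsUnitFor.apply (hW : 0 < W) (hKH : K ≤ H) (hab : AbelianOver K H) {x : Qbar}
    (h : IsUnitFor ι K H W x) {g : GQ} (hg : Fixes K g) : IsUnitFor ι K H W (g x) :=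
  ⟨apply_mem hKH hab hg h.mem, by simpa using h.ne_zero,
    h.int.map (g.toAlgHom.restrictScalars ℤ),
    by rw [← map_inv₀]; exact h.int_inv.map (g.toAlgHom.restrictScalars ℤ),
    fun w hw => h.abs (w.comp (g : Qbar →+* Qbar)) (hw.comp hg),
    abelianRoot_apply hW h.root g hg⟩

lemma IsUnitFor.raise {L : Sub} {W' d : ℕ} (hW : 0 < W' * d) (hLH : L ≤ H) {x : Qbar}
    (h : IsUnitFor ι K L W' x) : IsUnitFor ι K H (W' * d) (x ^ d) :=
  ⟨hLH (pow_mem h.mem d), pow_ne_zero _ h.ne_zero, h.int.pow d,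
    by rw [← inv_pow]; exact h.int_inv.pow d,
    fun w hw => by rw [map_pow, norm_pow, h.abs w hw, one_pow],
    abelianRoot_raise hW h.ne_zero h.root⟩

variable {G : Type} [CommGroup G]

/-- The functions on the Galois group given by units. -/
def unitFunctions (ι : Qbar →+* ℂ) (K H : Sub) (W : ℕ) (hW : 0 < W)
    (π : K.fixingSubgroup →* G) : AddSubgroup (G → ℂ) where
  carrier := {u | ∃ ε : Qbar, IsUnitFor ι K H W ε ∧ ∀ σ : K.fixingSubgroup,
    ((localDegree ι K * Real.log ‖ι ((σ : GQ) ε)‖ : ℝ) : ℂ) = -(W : ℂ) * u (π σ)}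
  zero_mem' := ⟨1, IsUnitFor.one hW, fun σ => by simp⟩
  add_mem' := by
    rintro u v ⟨x, hx, hx2⟩ ⟨y, hy, hy2⟩
    refine ⟨x * y, hx.mul hW hy, fun σ => ?_⟩
    have h1 : ‖ι ((σ : GQ) x)‖ ≠ 0 := by
      rw [norm_ne_zero_iff]; simpa using hx.ne_zero
    have h2 : ‖ι ((σ : GQ) y)‖ ≠ 0 := by
      rw [norm_ne_zero_iff]; simpa using hy.ne_zero
    rw [map_mul, map_mul, norm_mul, Real.log_mul h1 h2, mul_add, Complex.ofReal_add, hx2 σ, hy2 σ,
      Pi.add_apply, mul_add]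
  neg_mem' := by
    rintro u ⟨x, hx, hx2⟩
    refine ⟨x⁻¹, hx.inv hW, fun σ => ?_⟩
    rw [map_inv₀, map_inv₀, norm_inv, Real.log_inv, mul_neg, Complex.ofReal_neg, hx2 σ,
      Pi.neg_apply, mul_neg]

lemma unitFunctions_translate (hW : 0 < W) (hKH : K ≤ H) (hab : AbelianOver K H)
    (π : K.fixingSubgroup →* G) {u : G → ℂ} (hu : u ∈ unitFunctions ι K H W hW π)
    (g : K.fixingSubgroup) : (fun x => u (x * π g)) ∈ unitFunctions ι K H W hW π := by
  obtain ⟨x, hx, hx2⟩ := hu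
  refine ⟨(g : GQ) x, hx.apply hW hKH hab (fixes_iff.2 g.2), fun σ => ?_⟩
  have h := hx2 (σ * g)
  rw [map_mul] at h
  exact h

end Pool.Agent.J4.H17.SR
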