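import Pool.Agent.J4.H17.SR.Defs
import Pool.Agent.K4H33.SK.Zeta

/-! Linear combinations of continued Dirichlet series. -/

set_option autoImplicit false

namespace Pool.Agent.J4.H17.SR
open NumberField
open Pool.Agent.K4H33.SK (Qbar GQ Fixes IsZeta AbelianRoot IsTorsionOrder IsArtin cnt)

lemma isZeta_comb {ι : Type} (s : Finset ι) (c : ι → ℂ) (a : ι → ℕ → ℕ) (Z : ι → ℂ → ℂ)
    (b : ℕ → ℕ) (h : ∀ i ∈ s, IsZeta (a i) (Z i))
    (hb : ∀ n, (b n : ℂ) = ∑ i ∈ s, c i * (a i n : ℂ)) :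
    IsZeta b (fun t => ∑ i ∈ s, c i * Z i t) := by
  constructor
  · exact DifferentiableOn.fun_sum fun i hi => (h i hi).1.const_mul _
  · intro t ht
    have h1 : LSeriesHasSum (∑ i ∈ s, c i • fun n => (a i n : ℂ)) t (∑ i ∈ s, c i • Z i t) :=
      LSeriesHasSum.sum fun i hi => ((h i hi).2 t ht).smul (c i)
    have h2 : (fun n => (b n : ℂ)) = ∑ i ∈ s, c i • fun n => (a i n : ℂ) := by
      funext n
      rw [hb n, Finset.sum_apply]
      rfl
    rw [h2]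
    exact h1

lemma deriv_comb {ι : Type} (s : Finset ι) (c : ι → ℂ) (a : ι → ℕ → ℕ) (Z : ι → ℂ → ℂ)
    (b : ℕ → ℕ) (h : ∀ i ∈ s, IsZeta (a i) (Z i))
    (hb : ∀ n, (b n : ℂ) = ∑ i ∈ s, c i * (a i n : ℂ)) (Zb : ℂ → ℂ) (hZb : IsZeta b Zb) :
    deriv Zb 0 = ∑ i ∈ s, c i * deriv (Z i) 0 := by
  have h1 := (Pool.Agent.K4H33.SK.isZeta_deriv hZb (isZeta_comb s c a Z b h hb)
    (fun _ _ => rfl)).1
  rw [h1]
  have h2 : ∀ i ∈ s, DifferentiableAt ℂ (Z i) 0 := fun i hi =>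
    (h i hi).1.differentiableAt (isOpen_compl_singleton.mem_nhds (by simp))
  rw [deriv_fun_sum fun i hi => (h2 i hi).const_mul _]
  exact Finset.sum_congr rfl fun i hi => deriv_const_mul _ (h2 i hi)

end Pool.Agent.J4.H17.SR
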